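import Pool.Agent.Lib.MP_305fdd_al.F2.L.Stm

set_option autoImplicit false

namespace Pool.Agent.F2L

open Polynomial Pool.Agent.F2Ch Pool.Agent.F2 Pool.Agent.F2RF Pool.Agent.F2W Pool.Agent.F2D
open Pool.Agent.F2PF

private lemma ev_one {κ : Type} [Field κ] {C : κ → ℤ} (h : IsV C) : C 1 = 0 := by
  have h1 := h.mul 1 1 one_ne_zero one_ne_zero
  rw [mul_one] at h1
  omega

private lemma ev_inv {κ : Type} [Field κ] {C : κ → ℤ} (h : IsV C) (y : κ) (hy : y ≠ 0) :
    C y⁻¹ = -C y := by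
  have h1 := h.mul y y⁻¹ hy (inv_ne_zero hy)
  rw [mul_inv_cancel₀ hy, ev_one h] at h1
  omega

private lemma ev_pow {κ : Type} [Field κ] {C : κ → ℤ} (h : IsV C) (y : κ) (hy : y ≠ 0) (n : ℕ) :
    C (y ^ n) = n * C y := by
  induction n with
  | zero => rw [pow_zero, ev_one h]; simp
  | succ n ih =>
    rw [pow_succ, h.mul _ _ (pow_ne_zero _ hy) hy, ih]
    push_cast
    ring

private lemma ev_zpow {κ : Type} [Field κ] {C : κ → ℤ} (h : IsV C) (y : κ) (hy : y ≠ 0) (n : ℤ) :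
    C (y ^ n) = n * C y := by
  rcases Int.eq_nat_or_neg n with ⟨m, rfl | rfl⟩
  · rw [zpow_natCast, ev_pow h y hy]
  · rw [zpow_neg, zpow_natCast, ev_inv h _ (pow_ne_zero _ hy), ev_pow h y hy]
    ring

/-- two places with the same elements of positive value are equal -/
private lemma ev_eq {k κ : Type} [Field k] [Field κ] [Algebra k κ] {C C' : κ → ℤ} (hC : Plc k C)
    (hC' : Plc k C') (h : ∀ y, y ≠ 0 → (0 < C y ↔ 0 < C' y)) : C = C' := by
  obtain ⟨u, hu0, hu⟩ := hC.unif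
  obtain ⟨u', hu0', hu'⟩ := hC'.unif
  have hz : ∀ y, y ≠ 0 → C y = 0 → C' y = 0 := by
    intro y hy h0
    have h1 := h y hy
    have h2 := h y⁻¹ (inv_ne_zero hy)
    rw [ev_inv hC.isv y hy, ev_inv hC'.isv y hy] at h2
    omega
  have hf : ∀ y, y ≠ 0 → C' y = C y * C' u := by
    intro y hy
    have h1 : y * u ^ (-C y) ≠ 0 := mul_ne_zero hy (zpow_ne_zero _ hu0)
    have h2 : C (y * u ^ (-C y)) = 0 := by
      rw [hC.isv.mul _ _ hy (zpow_ne_zero _ hu0), ev_zpow hC.isv u hu0, hu]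
      ring
    have h3 := hz _ h1 h2
    rw [hC'.isv.mul _ _ hy (zpow_ne_zero _ hu0), ev_zpow hC'.isv u hu0] at h3
    linarith
  have hpos : 0 < C' u := (h u hu0).mp (by omega)
  have h1 : 1 = C u' * C' u := by rw [← hu', hf u' hu0']
  have h2 : C' u = 1 := by
    have h3 : C' u ∣ 1 := ⟨C u', by rw [h1]; ring⟩
    exact le_antisymm (Int.le_of_dvd one_pos h3) hpos
  funext y
  by_cases hy : y = 0
  · rw [hy, hC.isv.zero, hC'.isv.zero]
  · rw [hf y hy, h2, mul_one]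

private lemma ev_pos {k K κ : Type} {p : ℕ} [Field k] [Field K] [Field κ] [Algebra k κ]
    {w : K → ℤ} {ac : K → κ} {φb : κ → κ} {c : ℝ} {V : K → ℝ ×ₗ ℝ} {C : κ → ℤ} {δ b : ℝ}
    (hc : 0 < c) (hF : FPl k p w ac φb c V C δ b) (f : K) (hf : f ≠ 0) :
    0 < V f ↔ (0 < w f ∨ (w f = 0 ∧ 0 < C (ac f))) := by
  have h0 : (0 : ℝ ×ₗ ℝ) = toLex ((0 : ℝ), (0 : ℝ)) := rfl
  rw [hF.eq f hf, h0, Prod.Lex.toLex_lt_toLex]
  constructor
  · rintro (h | ⟨h1, h2⟩)
    · left
      have h' : 0 < c * (w f : ℝ) := h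
      have := (mul_pos_iff_of_pos_left hc).mp h'
      exact_mod_cast this
    · have h1' : 0 = c * (w f : ℝ) := h1
      have h2' : 0 < δ * (C (ac f) : ℝ) + b * (w f : ℝ) := h2
      have hw : (w f : ℝ) = 0 := by
        rcases mul_eq_zero.mp h1'.symm with h | h
        · exact absurd h hc.ne'
        · exact h
      right
      refine ⟨by exact_mod_cast hw, ?_⟩
      rw [hw, mul_zero, add_zero] at h2'
      have := (mul_pos_iff_of_pos_left hF.pos).mp h2'
      exact_mod_cast this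
  · rintro (h | ⟨h1, h2⟩)
    · left
      show 0 < c * (w f : ℝ)
      exact mul_pos hc (by exact_mod_cast h)
    · right
      constructor
      · show 0 = c * (w f : ℝ)
        rw [h1]; simp
      · show 0 < δ * (C (ac f) : ℝ) + b * (w f : ℝ)
        rw [h1, Int.cast_zero, mul_zero, add_zero]
        exact mul_pos hF.pos (by exact_mod_cast h2)

theorem p_Ev : S_Ev := by
  intro p k K κ _ _ _ _ _ w x ac φb hw hac c c' hc hc' V V' C C' δ δ' b b' hV hV' hF hF'
  refine ⟨⟨fun h => ?_, fun h => ?_⟩, fun h => ?_⟩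
  · refine ev_eq hF.plc hF'.plc fun y hy => ?_
    obtain ⟨f, hf0, hwf, hacf⟩ := hac.surj y hy
    have h1 := h f
    rw [ev_pos hc hF f hf0, ev_pos hc' hF' f hf0, hwf, hacf] at h1
    simpa using h1
  · intro f
    by_cases hf : f = 0
    · rw [hf, hV, hV']
    · rw [ev_pos hc hF f hf, ev_pos hc' hF' f hf, h]
  · refine ev_eq hF.plc hF'.plc fun y hy => ?_
    have h1 := h y⁻¹
    rw [ev_inv hF.plc.isv y hy, ev_inv hF'.plc.isv y hy] at h1
    omega

end Pool.Agent.F2L
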