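import Pool.Agent.Lib.MP_305fdd_al.F2.L.Defs

/-!
# MP_305fdd_al, F_2 project, section L (from `Core` to `LocF`): the pieces [F2L ..]

Every `def S_xx : Prop` is one independent piece; its docstring contains the complete proof.  The other
statements may be taken as hypotheses (`h : S_yy`).  The statements `S_..` of the sections C (`ChMain.lean`: `t_X2` etc., all proved),
RF, W, D, N, PF are used; those which are proved may be used as theorems, the others as hypotheses.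

`w : K → ℤ` is always a normalised compatible discrete valuation, `κ` its residue field with `RFd`.  For `f : K` with `w f = 0` the element `ac f` is
the residue of `f`; `lc w ac 0 f` is the residue of any `f` with `Ge w 0 f`.  `B` is the trace ring.
-/

set_option autoImplicit false

namespace Pool.Agent.F2L

open Polynomial Pool.Agent.F2Ch Pool.Agent.F2 Pool.Agent.F2RF Pool.Agent.F2W Pool.Agent.F2D
open Pool.Agent.F2PF

/-! ## 1. Pure statements on residue fields and flags -/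

/-- [F2L FC] (about 80 lines) Composites.
Proof. As `S_K1` (the proof in its docstring only uses the data in `RFd`; with `x : Fin 1`): `V f = toLex (c * w f, Q (ac f))`.  `V 0 = toLex (0, Q 0) = 0` (`ac 0 = 0`, `Q 0 = 0`).  Multiplicative.  Addition (`f, g, f + g ≠ 0`): if `w f < w g`
then `w (f+g) = w f` and `ac (f+g) = ac f` (`IsAC.add` at level `w f`); if `w f = w g = w (f+g)` then `ac (f+g) = ac f + ac g ≠ 0`; if `w (f+g)` is larger, clear.  Trivial on `k`: `IsAC.alg`.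
Compatibility: `φ f ≠ 0`, `w f ≤ p w (φ f)`.  If `<` done.  If `w f = p w (φ f)`, `m = w (φ f)`, `z = (x 0) ^ m` (`w z = m`, `ac z = 1`), `g = f / z ^ p`: `w g = 0`, `ac g = ac f`, `φ g = φ f / z` (`IsPinv`), `w (φ g) = 0`, `ac (φ g) = ac (φ f)`; `RFd.res` gives
`ac (φ f) = φb (ac f)`, and `Compat p φb Q`. -/
def S_FC : Prop :=
  ∀ (p : ℕ) [Fact p.Prime] (k K κ : Type) [Field k] [CharP k p] [Field K] [Algebra k K] [Field κ]
    [Algebra k κ] (φ : K → K) (w : K → ℤ) (x : Fin 1 → K) (ac : K → κ) (φb : κ → κ),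
    IsPinv p φ → RFd k p φ w x ac φb → ∀ Q : κ → ℝ, IsV Q → Triv k Q → Compat p φb Q →
    ∀ c : ℝ, 0 < c → InZ k p φ (fun f => (toLex (c * (w f : ℝ), Q (ac f)) : ℝ ×ₗ ℝ))

/-- [F2L FD2] (about 100 lines) Decomposition of a flag.
Proof. As `S_K2`: `b = (ofLex (V (x 0))).2`; for `y ∈ κ`, `y ≠ 0`, choose `f ≠ 0` with `w f = 0`, `ac f = y` and put `Q y = (ofLex (V f)).2`, `Q 0 = 0`.  Well defined: if `ac f = ac f'`, `w f = w f' = 0` then `f / f' = 1 + e` with `e = 0` or `w e > 0` (`lc w ac 0 (f/f' - 1) = 0`),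
so `V e > 0` (first component `c * w e > 0`), `V (f / f') = V 1 = 0`.  `IsV Q`: multiplicative; addition: for `y, y', y + y' ≠ 0` take lifts `f, f'`; `f + f'` is a lift of `y + y'` (`IsAC.add`), `V (f + f') ≥ min`, all first components are `0`.  Trivial: `V` is trivial on `k`.
Compatible: for `φb y ≠ 0` and a lift `f` of `y`, `φ f` is a lift of `φb y` (`RFd.res`).  Formula: `f = (f (x 0)^(-w f)) (x 0)^(w f)`, the first factor is a lift of `ac f` (`ac (x 0) = 1`). -/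
def S_FD2 : Prop :=
  ∀ (p : ℕ) [Fact p.Prime] (k K κ : Type) [Field k] [CharP k p] [Field K] [Algebra k K] [Field κ]
    [Algebra k κ] (φ : K → K) (w : K → ℤ) (x : Fin 1 → K) (ac : K → κ) (φb : κ → κ),
    IsPinv p φ → RFd k p φ w x ac φb → ∀ c : ℝ, 0 < c → ∀ V : K → ℝ ×ₗ ℝ, InZ k p φ V →
    (∀ f, (ofLex (V f)).1 = c * (w f : ℝ)) → ∃ (Q : κ → ℝ) (b : ℝ), InZ k p φb Q ∧
      ∀ f, f ≠ 0 → V f = toLex (c * (w f : ℝ), Q (ac f) + b * (w f : ℝ))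

/-- [F2L Ev] (about 80 lines) Equivalence of flags.
Proof. `0 < V f` iff `0 < w f`, or `w f = 0` and `0 < C (ac f)` (`f ≠ 0`; `V 0`: use `hV`, the zero element is not `> 0`).  (a) `C = C'` gives `Eqv`.  (b) `Eqv` gives `0 < C y ↔ 0 < C' y` for `y ≠ 0` (lift `y = ac f`, `w f = 0`), and (c) `0 ≤ C y ↔ 0 ≤ C' y` for all `y` gives the same
(`0 < C y ↔ ¬ 0 ≤ C y⁻¹` for `y ≠ 0`).  Then `C = C'`: let `C u = 1`, `C' u' = 1`.  `C y = 0 ↔ C' y = 0` (`y ≠ 0`; apply the equivalence to `y` and `y⁻¹`).  `C (y u^(- C y)) = 0`, so `C' y = C y * C' u` for all `y ≠ 0`; `C' u > 0`, and for `y = u'`: `1 = C u' * C' u`, so `C' u = 1`. -/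
def S_Ev : Prop :=
  ∀ (p : ℕ) (k K κ : Type) [Field k] [Field K] [Algebra k K] [Field κ] [Algebra k κ]
    (w : K → ℤ) (x : Fin 1 → K) (ac : K → κ) (φb : κ → κ), IsV w → IsAC k w x ac →
    ∀ (c c' : ℝ), 0 < c → 0 < c' → ∀ (V V' : K → ℝ ×ₗ ℝ) (C C' : κ → ℤ) (δ δ' b b' : ℝ),
    V 0 = 0 → V' 0 = 0 → FPl k p w ac φb c V C δ b → FPl k p w ac φb c' V' C' δ' b' →
    (Eqv V V' ↔ C = C') ∧ ((∀ y, 0 ≤ C y ↔ 0 ≤ C' y) → C = C')

/-- [F2L psi] (about 60 lines) A valuation which is trivial on `k[s]`, `s = Ψ + Ψ⁻¹`, is trivial on `k[Ψ]`.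
Proof. `Ψ ^ 2 - s Ψ + 1 = 0` and `v s ≥ 0` (or `s = 0`, impossible by transcendence) give `v Ψ ≥ 0`, and the same for `Ψ⁻¹`, so `v Ψ = 0`.  Let `P ≠ 0`; `k` is algebraically closed, so `P = c ∏ (X - c_i)`, `c ≠ 0`, and it is enough that `Ψ - d ≠ 0` and `v (Ψ - d) = 0` for `d ∈ k`:
`(Ψ - d) (Ψ⁻¹ - d) = 1 - d s + d ^ 2 = Q(s)` with `Q = 1 + d^2 - d X ≠ 0` (if `d = 0`: `Q = 1`), so it is `≠ 0` (`s` is transcendental) and has value `0`; both factors have value `≥ 0`. -/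
def S_psi : Prop :=
  ∀ (k κ : Type) [Field k] [IsAlgClosed k] [Field κ] [Algebra k κ] (Ψ : κ), Ψ ≠ 0 →
    Transcendental k (Ψ + Ψ⁻¹) → ∀ v : κ → ℤ, IsV v → Triv k v →
    (∀ P : k[X], P ≠ 0 → v (aeval (Ψ + Ψ⁻¹) P) = 0) →
    Transcendental k Ψ ∧ v Ψ = 0 ∧ ∀ P : k[X], P ≠ 0 → v (aeval Ψ P) = 0

/-! ## 2. Statements for `Core` -/

section

variable (p : ℕ) [Fact p.Prime] (k : Type) [Field k] [CharP k p] [PerfectRing k p] [IsAlgClosed k]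
  (Λ : Type) [Group Λ] (cl : Λ →* Multiplicative (ℤ × ℤ)) (K : Type) [Field K] [Algebra k K]
  (B : Subalgebra k K) (res : B →ₐ[k] Lau k) (T : Λ → K) (κ0 : B) (φ : K → K) (R : K → ℤ)
  (n : ℕ) (g : Fin n → K)

/-- [F2L bas] (about 80 lines) Uses `S_O2`, `S_Z1` of W. Basic facts.
Proof. (1) `Fra.gen` and `Bg`.  (2) `Br k g` is `B`; closed under products, `Fra.gen`.  (3) `T ⁅..⁆`: see `onto`: choose `l, l'` of classes `(1, 0)`, `(0, 1)`.  (4) `S_O2`.  (5) `S_Z1` with `t = ⟨T l, _⟩`, `c = cl l ≠ 0` (`cl l ≠ 1`).  (6) `res b` for `b = T l` is in `Sy k`, `gen`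
(`Algebra.adjoin_induction`, or: `B` is the adjoin, so the preimage of `Sy k` under `res` is everything); a given `ee k c = res (T l)` by `onto`. -/
def S_bas : Prop := Core p k cl B res T κ0 φ R g →
  FracGen k g ∧ Bs (Br k g) ∧ (∀ f, f ∈ Br k g ↔ f ∈ B) ∧ Rk2 cl ∧
  (∀ (Γ : Type) [AddCommGroup Γ] [LinearOrder Γ] [IsOrderedAddMonoid Γ] (V : K → Γ),
    InZ k p φ V → (∀ f : B, Gt V 0 (f : K) → ct (res f) = 0) ∧ ∀ l, T l ≠ 0 ∧ V (T l) ≤ 0) ∧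
  (∀ (Γ : Type) [AddCommGroup Γ] [LinearOrder Γ] [IsOrderedAddMonoid Γ] (V : K → Γ),
    InZ k p φ V → ∀ l, cl l ≠ 1 → V (T l) = 0 → ∀ P : k[X], P ≠ 0 →
      aeval (T l) P ≠ 0 ∧ V (aeval (T l) P) = 0) ∧
  (∀ f : B, res f ∈ Sy k) ∧ ∀ c : ℤ × ℤ, ∃ f : B, res f = ee k c

/-- [F2L ct] (about 60 lines) The first field of `LocF` (constant terms).
Proof. `z = T l`, `c = cl l ≠ 0`; `z ∈ B = Br k g` (`Bg`), `z ≠ 0` because `res z = ee k c ≠ 0`.  `Fra.tau` for `⟨z, _⟩` and its square: for large `N`, `(φ^[N] z)^(p^N) = ct (ee k c) = 0`, so `φ^[N] z = 0`; `(φ^[N] (z ^ 2))^(p^N) = ct (ee k c ^ 2) = 2` (`ee c * ee c = χ^(2c) + χ^(-2c) + 2`, `2 c ≠ 0`), and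
`2 = 2 ^ (p ^ N)` in `k` (`CharP`, `ZMod.pow_card` or `frobenius` on a natural number: `map_natCast`), so `φ^[N] (z ^ 2) = 2` (injectivity of `x ↦ x^(p^N)`).  `2 ≠ 0` as `p ≠ 2`. -/
def S_ct : Prop := Core p k cl B res T κ0 φ R g → ∀ z ∈ ES cl T, z ∈ Br k g ∧ z ≠ 0 ∧
    ∃ (M : ℕ) (c : k), φ^[M] z = 0 ∧ c ≠ 0 ∧ φ^[M] (z ^ 2) = algebraMap k K c

/-- [F2L FD0] (about 120 lines) Uses `S_R11` of W, `t_X2`. The residue field of a normalised `w`.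
Proof. `t_X2` for `V = w` (`d = 3`, `Core.pb`): a chart with `r + s = 3`, `trdeg κ = s`, `κ` finitely generated, `IsVB w x ex`, `IsAC`, `φb`.  `r = 1`: if `r = 0` then `w = 0` (`IsVB.gen`), against `Nrm`; if `r ≥ 2` then `m = (w (x 1), - w (x 0), 0, ..)` contradicts `IsVB.indep`.  `w (x 0) > 0` divides all values, so
`w (x 0) = 1`.  So `s = 2`.  `LogTy p φb`: `S_R11`. -/
def S_FD0 : Prop := Core p k cl B res T κ0 φ R g → ∀ w : K → ℤ, InZ k p φ w → F2N.Nrm w →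
    ∃ (κ : Type) (_ : Field κ) (_ : Algebra k κ) (x : Fin 1 → K) (ac : K → κ) (φb : κ → κ),
      RFd k p φ w x ac φb

/-- [F2L Q0] (about 120 lines) Uses `S_Z2`, `S_Z3` of W, `t_X2`. LEMMA 0'' for valuations of rational rank `≥ 2`.
Proof. `t_X2`: a chart of `V` with `r + s = 3`, `trdeg κ = s`.  `2 ≤ r`: if `r = 0` then `V = 0`, if `r = 1` then `V x1 = a • γ`, `V x2 = b • γ` with `γ = V (x 0)`, `a, b ∈ ℤ`, and `b • V x1 - a • V x2 = 0`, so `a = b = 0` by `hr`, and then `1 • V x1 = 0` contradicts `hr`.  So `s ≤ 1`; `S_Z3`, `S_Z2` with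
`t = z = T l`, `c = cl l ≠ 0`. -/
def S_Q0 : Prop := Core p k cl B res T κ0 φ R g →
    ∀ (Γ : Type) [AddCommGroup Γ] [LinearOrder Γ] [IsOrderedAddMonoid Γ] (V : K → Γ),
    InZ k p φ V → (∃ z ∈ ES cl T, V z = 0) →
    (∃ x1 x2 : K, x1 ≠ 0 ∧ x2 ≠ 0 ∧ ∀ m m' : ℤ, m • V x1 + m' • V x2 = 0 → m = 0 ∧ m' = 0) →
    ∀ f : B, res f = 0 → Ge V 0 (f : K) → Gt V 0 (f : K)

/-- [F2L ld] (about 80 lines) Uses `S_Q0`, `S_gor` of PF. The field `ld` of `LocF`.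
Proof. `S = {(ex f 0, ex f 1) | f ∈ B, res f = 0, f ≠ 0}` is closed under addition (`ex (f f') = ex f + ex f'` for nonzero elements, from `IsVB.gen`, `IsVB.indep`), and `0 ∉ S`: `ex f = 0` gives `V f = 0`, against `S_Q0` (`x1 = x 0`, `x2 = x 1`, independent by `IsVB.indep`).  `S_gor`: `u ≠ 0` with
`u · ex f ≤ 0` for `f` in the ideal.  For `f ∈ B`, `f ≠ 0` and `h = κ0 ≠ 0` (`res κ0 = 0`): `f^N h` is in the ideal, `N (u · ex f) + u · ex h ≤ 0` for all `N`, so `u · ex f ≤ 0`. -/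
def S_ld : Prop := Core p k cl B res T κ0 φ R g →
    ∀ (Γ : Type) [AddCommGroup Γ] [LinearOrder Γ] [IsOrderedAddMonoid Γ] (V : K → Γ)
    (x : Fin 2 → K) (ex : K → Fin 2 → ℤ), InZ k p φ V → IsVB V x ex → (∃ z ∈ ES cl T, V z = 0) →
    ∃ u : ℝ × ℝ, u ≠ 0 ∧ ∀ f ∈ Br k g, f ≠ 0 → u.1 * (ex f 0 : ℝ) + u.2 * (ex f 1 : ℝ) ≤ 0

/-- [F2L FD3] (about 150 lines) Uses `S_FD2`, `S_bas`, `t_X2`, `F2N.exists_norm`. The place of a flag with an elliptic element.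
Proof. `S_FD2`: `V f = toLex (c w f, Q (ac f) + b w f)`, `InZ k p φb Q`; `Q ≠ 0` by `Flag.nt`.  To see that all values of `Q` are integer multiples of one real number: let `G = {V f | f ≠ 0}`; `t_X2` for `V` gives `r + s = 3` with `trdeg κ_V = s` and a `ℤ`-basis `V (x i)` of `G`.  The residue of `z = T l` in `κ_V` is
transcendental over `k` (`S_bas` (6): `V (P(z)) = 0`, so `ac_V (P(z)) = P(ac_V z) ≠ 0`), so `s ≥ 1`, `r ≤ 2`.  Let `H = {m ∈ ℤ^r | the first component of ∑ m_i V (x i) is 0}`, the kernel of the homomorphism `m ↦ ∑ m_i w (x i)` to `ℤ`, which is not zero (`w` is not zero).  If `r = 1`, `H = 0` and `Q = 0`: contradiction.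
If `r = 2`, `H = ℤ h` with `h = (w (x 1), - w (x 0)) / gcd`, so every `f` with `w f = 0` has `V f = j • V_h`, i.e. `Q (ac f) = j β` with one real `β`.  Every `y ≠ 0` in `κ` is such an `ac f`.  `F2N.exists_norm` (for `κ`, `φb`, `Q`, `γ = β`): `Q = δ C`. -/
def S_FD3 : Prop := Core p k cl B res T κ0 φ R g → ∀ (κ : Type) [Field κ] [Algebra k κ]
    (w : K → ℤ) (x : Fin 1 → K) (ac : K → κ) (φb : κ → κ), RFd k p φ w x ac φb →
    ∀ (c : ℝ), 0 < c → ∀ V : K → ℝ ×ₗ ℝ, Flag k p φ (fun f => c * (w f : ℝ)) V →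
    (∃ z ∈ ES cl T, V z = 0) → ∃ (C : κ → ℤ) (δ b : ℝ), FPl k p w ac φb c V C δ b

/-- [F2L tz] (about 60 lines) Uses `S_bas`. Elliptic elements of a flag and its place.
Proof. (1) `V (T l) = 0` gives `w (T l) = 0` and `C (ac (T l)) = 0`; conversely clear.  (2) `P ≠ 0`: `P(T l) ≠ 0`, `V (P(T l)) = 0` (`S_bas`), so `w (P(T l)) = 0` and `C (ac (P(T l))) = 0`; `ac (P(T l)) = P(ac (T l))`: `f ↦ lc w ac 0 f` is a homomorphism of `k`-algebras on `{Ge w 0}`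
(`IsAC.add`, `mul`, `alg`), so `lc w ac 0 (aeval f P) = aeval (lc w ac 0 f) P`.  (3) the same for `w` instead of `V`: `ac (T l)` is transcendental. -/
def S_tz : Prop := Core p k cl B res T κ0 φ R g → ∀ (κ : Type) [Field κ] [Algebra k κ]
    (w : K → ℤ) (x : Fin 1 → K) (ac : K → κ) (φb : κ → κ), RFd k p φ w x ac φb →
    ∀ l, cl l ≠ 1 → w (T l) = 0 → Transcendental k (ac (T l)) ∧
      ∀ (c : ℝ), 0 < c → ∀ (V : K → ℝ ×ₗ ℝ) (C : κ → ℤ) (δ b : ℝ), InZ k p φ V →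
        FPl k p w ac φb c V C δ b → (V (T l) = 0 ↔ C (ac (T l)) = 0) ∧
        (V (T l) = 0 → ∀ P : k[X], P ≠ 0 → C (aeval (ac (T l)) P) = 0)

/-- [F2L DV] (about 100 lines) Uses `S_Q0`, `S_gor` of PF. A nonzero functional at a flag; pole type or `b_0` type.
Proof. `S = {(w f, C (ac f)) | f ∈ B, res f = 0, f ≠ 0} ⊆ ℤ²` is closed under addition; `0 ∉ S`: such an `f` has `V f = 0`, against `S_Q0` (rational rank `≥ 2`: `x1 = x 0`, and `x2` with `w x2 = 0`, `ac x2` a uniformiser of `C`: `V x1 = (c, ..)`, `V x2 = (0, δ)`).  `S_gor`: `(a, e) ≠ 0`, `a w f + e C (ac f) ≤ 0` on the ideal, so on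
`B - 0` (as in `S_ld`).  With `c2 V f = δ C (ac f) + b w f`: `((a - e b / δ) / c) (c w f) + (e / δ) c2 V f ≤ 0`: `u = ((a - e b / δ) / c, e / δ) ≠ 0` is in `DV`.  If `u.2 > 0` divide by it: `PT`; if `u.2 < 0` divide by `- u.2`: `BT`; if `u.2 = 0` then `u.1 ≠ 0` and `u.1 c w f ≤ 0` on `B - 0`: `u.1 > 0` gives `SG`, and
`u.1 < 0` contradicts `hneg`. -/
def S_DV : Prop := Core p k cl B res T κ0 φ R g → ∀ (κ : Type) [Field κ] [Algebra k κ]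
    (w : K → ℤ) (x : Fin 1 → K) (ac : K → κ) (φb : κ → κ), RFd k p φ w x ac φb →
    (∃ f : B, w f < 0) → ∀ (c : ℝ), 0 < c → ∀ V : K → ℝ ×ₗ ℝ,
    Flag k p φ (fun f => c * (w f : ℝ)) V → (∃ z ∈ ES cl T, V z = 0) →
    ∀ (C : κ → ℤ) (δ b : ℝ), FPl k p w ac φb c V C δ b →
    (∀ f : B, res f = 0 → (f : K) ≠ 0 → w f = 0 → C (ac f) ≠ 0) ∧
    (SG (Br k g) (fun f => c * (w f : ℝ)) ∨ PT (Br k g) (fun f => c * (w f : ℝ)) V ∨
      BT (Br k g) (fun f => c * (w f : ℝ)) V)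

/-- [F2L L1] (about 120 lines) Uses `S_Z6`, `S_Z7`, `S_A5` of W, `F2D.D_heis`, `S_bas`, `t_X2`. THE CLASSES OF THE ELLIPTIC ELEMENTS ARE DEPENDENT.
Proof. Suppose that `cl l`, `cl l'` are independent.  `t_X2` for `w`: `r + s = 3`, `r ≥ 1` (`w` is not `0`), `s ≤ 2`; `S_Z7`, `S_Z6`: (*) `f ∈ B`, `res f = 0`, `Ge w 0 f` implies `Gt w 0 f`.  CASE 1: `w f > 0` for some `f ∈ B`, `res f = 0`, `f ≠ 0`.  By `S_A5` (`κ0 ≠ 0` and `hneg`) there is `f'` with `res f' = 0`,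
`w f' < 0`; `h = f ^ (- w f') * f' ^ (w f)` is in the ideal, `h ≠ 0`, `w h = 0`: against (*).  CASE 2: `w f ≤ 0`, so by (*) `w f < 0`, for all `0 ≠ f ∈ B` with `res f = 0`.  Let `0 ≤ w (T u)`, `cl u = 1`.  `f = T u - 2 ∈ B` has `res f = ee 0 - 2 = 0` and `Ge w 0 f`, so `f = 0`: `T u = 2`, `π u = 1`.  `F2D.D_heis` (`v = w`, `Disc w` with `γ = 1`,
`Rk2 cl` from `S_bas`) gives `OntoF2 Λ`: contradiction. -/
def S_L1 : Prop := Core p k cl B res T κ0 φ R g → ¬ OntoF2 Λ → ∀ w : K → ℤ, InZ k p φ w →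
    F2N.Nrm w → (∃ f : B, w f < 0) → ∀ l l', 0 ≤ w (T l) → 0 ≤ w (T l') → Dpd (cl l) (cl l')

/-- [F2L gen] (about 60 lines) Uses `S_L1`, `S_F` and `S_O1` of W, `F2N.generic`. THE GENERIC CLASS.
Proof. `F2N.generic` with `X = {R}`, `t = g`.  `hL1`: for `w ≠ R` normalised there is `f : B` with `w f < 0`: otherwise (`Ge w 0` on `B`; `S_O1`) `w f = n w κ0` and `R f = n` for all `f`, `w κ0 > 0`, `w` and `R` normalised (`R κ0 = 1`: `Rf` with `a = b = 1`), so `w = R`.  Then `S_L1`.  The result is `Gnr`. -/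
def S_gen : Prop := Core p k cl B res T κ0 φ R g → ¬ OntoF2 Λ →
    (∃ m : ℤ, Gnr k p cl T φ R g m) ∧
    ∀ w : K → ℤ, InZ k p φ w → F2N.Nrm w → ((∃ f : B, w f < 0) ↔ w ≠ R)

/-- [F2L ed] (about 80 lines) Uses `S_L1`, `F2D.D_edge`, `F2D.EdgeElt.root`, `S_bas`. AN ELEMENT OF AN EDGE STABILISER.
Proof. `F2D.D_edge` for `v = w` with `S_L1`: `z, g', ψ` with `0 ≤ w (T z)`, `cl z ≠ 1`, `EdgeElt`.  `w (T z) = 0` by `S_bas`.  `Gt w 0 (T z - (ψ + ψ⁻¹))`.  `lc w ac 0` is additive on `{Ge w 0}`: `lc (T z) = lc (ψ + ψ⁻¹) + 0 = ac ψ + ac ψ⁻¹`, and `ac ψ⁻¹ = (ac ψ)⁻¹` (`ac 1 = 1`); `lc (T z) = ac (T z)`. -/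
def S_ed : Prop := Core p k cl B res T κ0 φ R g → ¬ OntoF2 Λ → ∀ (κ : Type) [Field κ]
    [Algebra k κ] (w : K → ℤ) (x : Fin 1 → K) (ac : K → κ) (φb : κ → κ), RFd k p φ w x ac φb →
    (∃ f : B, w f < 0) → ∃ (z g' : Λ) (ψ : K), cl z ≠ 1 ∧ w (T z) = 0 ∧ EdgeElt w T z g' ψ ∧
      ac ψ + (ac ψ)⁻¹ = ac (T z)

/-- [F2L ell] (about 100 lines) Uses `S_DV`, `S_tz`, `S_bas`, `S_psi`, `F2D.EdgeElt.pole`. THE EDGE ELEMENT IS ELLIPTIC.
Proof. Let `hel` be the alternative.  If all `E`-elements which are elliptic at `w` are elliptic at `V`: `V (T z) = 0`.  Otherwise `w` is not `SG` and by `S_DV` `V` is `PT` or `BT`.  `PT`: `μ w f + c2 V f ≤ 0` on `B - 0`, so for all `T l`; `F2D.EdgeElt.pole` (`EdgeElt` for `fun f => (ofLex (V f)).1 = c w f`: same as for `w`) with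
`α = μ`, `β = 1`: `V ψ = 0`.  `T z = ψ + ψ⁻¹ + r` with `r = 0` or `w r > 0`, so `V r > 0`: `V (T z) ≥ 0`, so `= 0` (`S_bas`).  `BT`: `μ (c w f) - c2 V f ≤ 0` for `f = T z`, `w (T z) = 0`: `c2 V (T z) ≥ 0`, so `V (T z) ≥ 0`, `= 0`.  Then `S_tz`: `C` is trivial on `k[ac (T z)] - 0`, `ac (T z) = Ψ + Ψ⁻¹` transcendental, and `S_psi`. -/
def S_ell : Prop := Core p k cl B res T κ0 φ R g → ∀ (κ : Type) [Field κ]
    [Algebra k κ] (w : K → ℤ) (x : Fin 1 → K) (ac : K → κ) (φb : κ → κ), RFd k p φ w x ac φb →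
    (∃ f : B, w f < 0) → ∀ (z g' : Λ) (ψ : K), cl z ≠ 1 → w (T z) = 0 → EdgeElt w T z g' ψ →
    ac ψ + (ac ψ)⁻¹ = ac (T z) → ∀ (c : ℝ), 0 < c → ∀ V : K → ℝ ×ₗ ℝ,
    Flag k p φ (fun f => c * (w f : ℝ)) V → (∃ z' ∈ ES cl T, V z' = 0) →
    ∀ (C : κ → ℤ) (δ b : ℝ), FPl k p w ac φb c V C δ b →
    (¬ SG (Br k g) (fun f => c * (w f : ℝ)) ∨ ∀ z' ∈ ES cl T, w z' = 0 → V z' = 0) →
    V (T z) = 0 ∧ Transcendental k (ac (T z)) ∧
      (∀ P : k[X], P ≠ 0 → C (aeval (ac (T z)) P) = 0) ∧ Transcendental k (ac ψ) ∧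
      ∀ P : k[X], P ≠ 0 → C (aeval (ac ψ) P) = 0

/-- [F2L l2] (about 120 lines) Uses `S_gen`, `S_ed`, `S_ell`, `S_FC`, `S_Ev`, `S_R12` of W. A SECOND FLAG.
Proof. `w ≠ R` (`S_gen`); `V` has an elliptic element in `AS cl T m`, which is elliptic at `w`, so by `Gnr` `w` is regular and all elliptic classes are proportional to `(1, m)`.  `z, g', ψ` from `S_ed`, `Ψ = ac ψ`; by `S_ell` `C` is trivial on `k[Ψ] - 0` and `V (T z) = 0`.  `T z = aeval g q` (`Bg`).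
`S_R12` (`t = g`, `ac' = ac`, `v = C`): `C'` with `Plc k C'`, `Compat p φb C'`, `C' (Q(Ψ)) = 0`, and `f0` with `Ge C 0 f0`, not `Ge C' 0 f0`.  `V' f = toLex (c w f, C' (ac f))`: `InZ` by `S_FC` (`Q = C'` as a real function), a flag (`nt`: lift of a uniformiser), `FPl k p w ac φb c V' C' 1 0`.
`V' (T z) = 0`: `w (T z) = 0` and `C' (ac (T z)) = C' (Ψ + Ψ⁻¹) = 0` (`(Ψ² + 1)` and `Ψ` have value `0`).  `T z ∈ AS cl T m` by `Gnr`.  Not equivalent: `S_Ev`, `C ≠ C'` because of `f0`. -/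
def S_l2 : Prop := Core p k cl B res T κ0 φ R g → ¬ OntoF2 Λ → ∀ m : ℤ, Gnr k p cl T φ R g m →
    ∀ w : K → ℤ, InZ k p φ w → F2N.Nrm w → (∃ f : B, w f < 0) → ∀ (c : ℝ), 0 < c →
    ∀ V : K → ℝ ×ₗ ℝ, Flag k p φ (fun f => c * (w f : ℝ)) V → (∃ z ∈ AS cl T m, V z = 0) →
    (¬ SG (Br k g) (fun f => c * (w f : ℝ)) ∨ ∀ z ∈ ES cl T, w z = 0 → V z = 0) →
    ∃ V', Flag k p φ (fun f => c * (w f : ℝ)) V' ∧ (∃ z ∈ AS cl T m, V' z = 0) ∧ ¬ Eqv V V'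

/-- [F2L neg] (about 80 lines) Uses `S_A1`, `S_A4` of W, `S_bas`, `S_DV`. THE RESIDUE RING and the pole type place.
Proof. `w` takes both signs on `B`: `hneg`, and `¬ SG` gives `f ∈ B` with `w f > 0`; even in the ideal: `0 < w (f^N κ0)` for large `N`; and `S_A5` for the negative sign.  `A` from `S_A1`.  `PT`: `μ (c w f) + c2 V f ≤ 0`, so for `f` in the ideal, `f ≠ 0`, `w f = 0`: `C (ac f) ≤ 0`, and `≠ 0` by `S_DV`, so `< 0`.  `S_A4` for the real function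
`C`. -/
def S_neg : Prop := Core p k cl B res T κ0 φ R g → ∀ (κ : Type) [Field κ]
    [Algebra k κ] (w : K → ℤ) (x : Fin 1 → K) (ac : K → κ) (φb : κ → κ), RFd k p φ w x ac φb →
    (∃ f : B, w f < 0) → ∀ (c : ℝ), 0 < c → ¬ SG (Br k g) (fun f => c * (w f : ℝ)) →
    (∃ f : B, 0 < w f) ∧ ∃ A : Subalgebra k κ,
      (∀ z, z ∈ A ↔ ∃ f : B, Ge w 0 (f : K) ∧ lc w ac 0 (f : K) = z) ∧ FracOf A ∧
    ∀ V : K → ℝ ×ₗ ℝ,
    Flag k p φ (fun f => c * (w f : ℝ)) V → (∃ z ∈ ES cl T, V z = 0) →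
    PT (Br k g) (fun f => c * (w f : ℝ)) V → ∀ (C : κ → ℤ) (δ b : ℝ), FPl k p w ac φb c V C δ b →
    ∃ Q : Set κ, (∀ h ∈ Q, h ∈ A) ∧ (∃ h ∈ Q, h ≠ 0) ∧ (∀ a ∈ A, ∀ h ∈ Q, a * h ∈ Q) ∧
      (∀ h ∈ Q, h ≠ 0 → C h < 0) ∧ (∀ a ∈ A, a ≠ 0 → C a ≤ 0) ∧ ∃ a ∈ A, a ≠ 0 ∧ C a < 0

/-- [F2L l3] (about 100 lines) Uses `S_neg`, `S_ed`, `S_ell`, `S_Ev`, `S_FD0`, `S_FD3`, `S_A2` of W. TWO POLE TYPE FLAGS ARE EQUIVALENT.
Proof. `RFd` from `S_FD0`, places `C`, `C'` from `S_FD3`.  `z, ψ` from `S_ed`; `s = ac (T z) ∈ A` (`T z ∈ B`, `w (T z) = 0`), transcendental, `C`, `C'` trivial on `k[s] - 0` (`S_ell`, first alternative).  `S_neg` for both gives `Q`, `Q'`; `Q ∩ Q'` is an ideal of `A` and not `0` (`h h'`, `h ∈ Q`, `h' ∈ Q'`).  `S_A2` (`M = κ`, `trd`, `fg`, real functions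
`C`, `C'`): `0 ≤ C y ↔ 0 ≤ C' y`.  `S_Ev`. -/
def S_l3 : Prop := Core p k cl B res T κ0 φ R g → ¬ OntoF2 Λ → ∀ w : K → ℤ, InZ k p φ w →
    F2N.Nrm w → (∃ f : B, w f < 0) → ∀ (c : ℝ), 0 < c →
    ¬ SG (Br k g) (fun f => c * (w f : ℝ)) → ∀ V V' : K → ℝ ×ₗ ℝ,
    Flag k p φ (fun f => c * (w f : ℝ)) V → (∃ z ∈ ES cl T, V z = 0) →
    PT (Br k g) (fun f => c * (w f : ℝ)) V → Flag k p φ (fun f => c * (w f : ℝ)) V' →
    (∃ z ∈ ES cl T, V' z = 0) → PT (Br k g) (fun f => c * (w f : ℝ)) V' → Eqv V V'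

/-- [F2L l6] (about 100 lines) Uses `S_neg`, `S_ed`, `S_ell`, `S_FD0`, `S_FD3`, `S_U12` of RF. THE INEQUALITY.
Proof. `RFd`, `C`, `C'`, `z, ψ`, `s = ac (T z) ∈ A` as in `S_l3`; `C`, `C'` are trivial on `k[s] - 0` (`S_ell`, first alternative, for both flags).  `S_neg` for `V`: `C ≤ 0` on `A - 0` and `C a < 0` for some `a`.  `S_U12` (`M = κ`, `c₁ = C`, `c₂ = C'`, second part): `ρ' > 0` with `C a + ρ' C' a ≤ 0` for `0 ≠ a ∈ A`.  For `h ∈ B`, `h ≠ 0`, `w h = 0`: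
`ac h ∈ A`, `c2 V h = δ C (ac h)`, `c2 V' h = δ' C' (ac h)`; `ρ = ρ' δ / δ'`. -/
def S_l6 : Prop := Core p k cl B res T κ0 φ R g → ¬ OntoF2 Λ → ∀ w : K → ℤ, InZ k p φ w →
    F2N.Nrm w → (∃ f : B, w f < 0) → ∀ (c : ℝ), 0 < c →
    ¬ SG (Br k g) (fun f => c * (w f : ℝ)) → ∀ V V' : K → ℝ ×ₗ ℝ,
    Flag k p φ (fun f => c * (w f : ℝ)) V → (∃ z ∈ ES cl T, V z = 0) →
    PT (Br k g) (fun f => c * (w f : ℝ)) V → Flag k p φ (fun f => c * (w f : ℝ)) V' →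
    (∃ z ∈ ES cl T, V' z = 0) →
    ∃ ρ : ℝ, 0 < ρ ∧ ∀ h ∈ Br k g, h ≠ 0 → w h = 0 → c2 V h + ρ * c2 V' h ≤ 0

/-- [F2L l1] (about 40 lines) Uses `S_bas`, `F2D.D_zero`. AN ELLIPTIC ELEMENT OF CLASS DIFFERENT FROM ZERO.
Proof. Otherwise every `l` with `cl l ≠ 1` has `w (T l) ≠ 0`, so `< 0` (`S_bas`); so `0 ≤ w (T l)` implies `cl l = 1`; `F2D.D_zero` (`Disc w`: `Dv w`). -/
def S_l1 : Prop := Core p k cl B res T κ0 φ R g → ¬ OntoF2 Λ → ∀ w : K → ℝ, InZ k p φ w →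
    Dv w → ∃ z ∈ ES cl T, w z = 0

end

end Pool.Agent.F2L
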