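import Pool.Agent.Lib.MP_305fdd_al.F2.L.Defs
import Pool.Agent.Lib.MP_305fdd_al.F2.Core
import Pool.Agent.Lib.MP_305fdd_al.F2.D.Main

/-!
# MP_305fdd_al, F_2 project, section L: `F2.Core` (the data, helper53) gives `F2L.Core` (the Prop)
-/

set_option autoImplicit false

namespace Pool.Agent.F2L

open Pool.Agent.F2Ch Pool.Agent.F2 Pool.Agent.F2RF Pool.Agent.F2W Pool.Agent.F2D Pool.Agent.F2PF

variable {p : ℕ} [Fact p.Prime] {k K Λ : Type} [Field k] [CharP k p] [IsAlgClosed k]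
  [Field K] [Algebra k K] [Group Λ]

/-- the data give the list of facts -/
theorem ofCore (C : F2.Core p k K Λ) :
    Core p k C.cl C.B C.res C.T C.κ0 C.φ C.R C.t where
  odd := C.odd
  fra := C.fra
  Bg := C.mem_B
  κg := ⟨C.j0, C.κ0_t⟩
  trd := C.trdeg
  pb := ⟨C.b0, C.ρ0, C.pb⟩
  log := C.log
  pc := C.pc
  mem := C.T_mem
  gen := C.adj
  res_T := C.res_T
  onto := C.cl_surj
  irr := C.irr
  two := fun u hu l => (C.two u hu l).1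
  pi := ⟨C.M, C.grpM, C.pi, C.pi_one, fun l l' h => (dep_iff _ _).1 (C.pi_dep l l' h)⟩
  κres := C.κ0_res
  κne := fun h => C.κ0_ne (by rw [h]; rfl)
  loc := ⟨C.q, C.q_res, C.q_mul⟩
  ord := C.hord
  Rv := C.R_inz
  Rf := fun f m a b _ ha hb h => C.R_eq f m a b ha hb h

theorem ES_eq (C : F2.Core p k K Λ) : ES C.cl C.T = C.E := by
  ext z
  exact ⟨fun ⟨l, h1, h2⟩ => ⟨l, h1, h2.symm⟩, fun ⟨l, h1, h2⟩ => ⟨l, h1, h2.symm⟩⟩

theorem AS_eq (C : F2.Core p k K Λ) (m : ℤ) :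
    AS C.cl C.T m = C.A (Multiplicative.ofAdd (1, m)) := by
  ext z
  exact ⟨fun ⟨l, h1, h2, h3⟩ => ⟨l, h1, (dep_iff _ _).2 h2, h3.symm⟩,
    fun ⟨l, h1, h2, h3⟩ => ⟨l, h1, (dep_iff _ _).1 h2, h3.symm⟩⟩

end Pool.Agent.F2L
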