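import Pool.Agent.Lib.MP_305fdd_al.F2.BDefs
import Pool.Agent.Lib.MP_305fdd_al.F2.W.Stm4
import Pool.Agent.Lib.MP_305fdd_al.F2.D.StmB
import Pool.Agent.Lib.MP_305fdd_al.F2.N.Main
import Pool.Agent.Lib.MP_305fdd_al.F2.PF.DefsB

/-!
# MP_305fdd_al, F_2 project, section L (from the data of section 0 to the local facts `LocF`): definitions

`Core` is the list of all facts of section 0 of the master text which are used later.
-/

set_option autoImplicit false

namespace Pool.Agent.F2L

open Polynomial Pool.Agent.F2Ch Pool.Agent.F2 Pool.Agent.F2RF Pool.Agent.F2W Pool.Agent.F2D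
open Pool.Agent.F2PF

/-- The data over `k` of a group `Λ` with the finite quotients of the free group of rank two.  `B` is the trace ring (the component through the reducible
locus), `K` its field of fractions, `T l ∈ B` the traces, `cl` the class of `l` in the abelianisation `ℤ²`, `res` the restriction to the reducible locus,
`κ0 = T ⁅x, y⁆ - 2` a local equation of the reducible locus, `R` the order along it, `φ` the Frobenius splitting, `g` generators of `B`. -/
structure Core (p : ℕ) [Fact p.Prime] (k : Type) [Field k] [CharP k p] [PerfectRing k p]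
    {Λ : Type} [Group Λ] (cl : Λ →* Multiplicative (ℤ × ℤ)) {K : Type} [Field K] [Algebra k K]
    (B : Subalgebra k K) (res : B →ₐ[k] Lau k) (T : Λ → K) (κ0 : B) (φ : K → K) (R : K → ℤ)
    {n : ℕ} (g : Fin n → K) : Prop where
  odd : p ≠ 2
  /-- `K = Frac B`, `φ` is additive and `p⁻¹`-linear, `φ 1 = 1`, constant term formula -/
  fra : Fra p k B res φ
  Bg : ∀ f : K, f ∈ B ↔ ∃ q : MvPolynomial (Fin n) k, MvPolynomial.aeval g q = f
  κg : ∃ j, g j = κ0
  trd : Algebra.trdeg k K = 3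
  pb : ∃ (b : Fin (p ^ 3) → K) (ρ : Fin (p ^ 3) → K → K), IsPB p b ρ
  log : LogTy p φ
  pc : PC T
  mem : ∀ l, T l ∈ B
  gen : Algebra.adjoin k (Set.range T) = B
  res_T : ∀ l, res ⟨T l, mem l⟩ = ee k (Multiplicative.toAdd (cl l))
  onto : Function.Surjective cl
  irr : Irr T
  two : ∀ u, T u = 2 → ∀ l, T (l * u) = T l
  pi : ∃ (M : Type) (_ : Group M) (π : Λ →* M), (∀ l, π l = 1 ↔ T l = 2) ∧
    ∀ l l', Commute (π l) (π l') → Dpd (cl l) (cl l')
  κres : res κ0 = 0
  κne : κ0 ≠ 0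
  /-- the ideal of the reducible locus is locally generated by `κ0` -/
  loc : ∃ e : B, res e = 1 ∧ ∀ b, res b = 0 → ∃ c, e * b = κ0 * c
  ord : ∀ f : K, f ≠ 0 → ∃ (m : ℤ) (a b : B), res a ≠ 0 ∧ res b ≠ 0 ∧
    f * b = (κ0 : K) ^ m * a
  Rv : InZ k p φ R
  Rf : ∀ (f : K) (m : ℤ) (a b : B), f ≠ 0 → res a ≠ 0 → res b ≠ 0 →
    f * b = (κ0 : K) ^ m * a → R f = m

/-- the elements of class different from zero -/
def ES {Λ : Type} [Group Λ] (cl : Λ →* Multiplicative (ℤ × ℤ)) {K : Type} (T : Λ → K) : Set K :=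
  {z | ∃ l, cl l ≠ 1 ∧ z = T l}

/-- the elements whose class is a nonzero rational multiple of `(1, m)` -/
def AS {Λ : Type} [Group Λ] (cl : Λ →* Multiplicative (ℤ × ℤ)) {K : Type} (T : Λ → K) (m : ℤ) :
    Set K :=
  {z | ∃ l, cl l ≠ 1 ∧ Dpd (cl l) (Multiplicative.ofAdd (1, m)) ∧ z = T l}

/-- `(1, m)` is a generic class: all divisorial points with an elliptic element of a class proportional to `(1, m)`, except the order along the
reducible locus, are regular and the classes of all their elliptic elements are proportional to `(1, m)`. -/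
def Gnr (k : Type) (p : ℕ) [Field k] {Λ : Type} [Group Λ] (cl : Λ →* Multiplicative (ℤ × ℤ)) {K : Type}
    [Field K] [Algebra k K] (T : Λ → K) (φ : K → K) (R : K → ℤ) {n : ℕ} (g : Fin n → K) (m : ℤ) :
    Prop :=
  ∀ w : K → ℤ, InZ k p φ w → F2N.Nrm w → w ≠ R →
    (∃ l, 0 ≤ w (T l) ∧ cl l ≠ 1 ∧ Dpd (cl l) (Multiplicative.ofAdd (1, m))) →
    Reg k p φ g w ∧ ∀ l, 0 ≤ w (T l) → Dpd (cl l) (Multiplicative.ofAdd (1, m))

/-- `w` is a normalised compatible discrete valuation, `κ` its residue field, `ac` an angular component, `φb` the residual map. -/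
structure RFd (k : Type) (p : ℕ) [NeZero p] {K κ : Type} [Field k] [Field K] [Algebra k K]
    [Field κ] [Algebra k κ] (φ : K → K) (w : K → ℤ) (x : Fin 1 → K) (ac : K → κ) (φb : κ → κ) :
    Prop where
  inz : InZ k p φ w
  ne : x 0 ≠ 0
  val : w (x 0) = 1
  isac : IsAC k w x ac
  pinv : IsPinv p φb
  one : φb 1 = 1
  res : ∀ f, Ge w 0 f → Ge w 0 (φ f) ∧ lc w ac 0 (φ f) = φb (lc w ac 0 f)
  trd : Algebra.trdeg k κ = 2
  fg : ∃ (n' : ℕ) (t' : Fin n' → κ), FracGen k t'
  log : LogTy p φb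

/-- the flag `V` at the point `c * w` is given by the place `C` of the residue field of `w` -/
structure FPl (k : Type) (p : ℕ) {K κ : Type} [Field k] [Field K] [Field κ] [Algebra k κ]
    (w : K → ℤ) (ac : K → κ) (φb : κ → κ) (c : ℝ) (V : K → ℝ ×ₗ ℝ) (C : κ → ℤ) (δ b : ℝ) :
    Prop where
  plc : Plc k C
  cpt : Compat p φb C
  pos : 0 < δ
  eq : ∀ f, f ≠ 0 → V f = toLex (c * (w f : ℝ), δ * (C (ac f) : ℝ) + b * (w f : ℝ))

end Pool.Agent.F2L
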