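import Pool.Agent.Lib.MP_305fdd_al.F2.L.Stm
import Pool.Agent.Lib.MP_305fdd_al.F2.L.Bridge

/-!
# MP_305fdd_al, F_2 project, section L: the local facts `LocF` from the pieces
-/

set_option autoImplicit false

namespace Pool.Agent.F2L

open Pool.Agent.F2Ch Pool.Agent.F2 Pool.Agent.F2RF Pool.Agent.F2W Pool.Agent.F2D Pool.Agent.F2PF

/-- the fields of `LocF` on the reducible locus (helper70) -/
structure RFields (k : Type) (p : ℕ) {K : Type} [Field k] [Field K] [Algebra k K] {n : ℕ}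
    (φ : K → K) (g : Fin n → K) (A : Set K) (R : K → ℝ) : Prop where
  Rinz : InZ k p φ R
  Rdv : Dv R
  Rnn : ∀ f ∈ Br k g, f ≠ 0 → 0 ≤ R f
  Rpos : ∃ j, 0 < R (g j)
  R9 : ∀ v : K → ℝ, InZ k p φ v → (∃ f, v f ≠ 0) → (∀ f ∈ Br k g, f ≠ 0 → 0 ≤ v f) → Pr R v
  R7e : ∃ V, Flag k p φ R V ∧ ∃ z ∈ A, V z = 0
  R7u : ∀ V V', Flag k p φ R V → (∃ z ∈ A, V z = 0) → Flag k p φ R V' → (∃ z ∈ A, V' z = 0) →
    Eqv V V'
  R7f : ∀ V, Flag k p φ R V → (∃ z ∈ A, V z = 0) →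
    ∃ μ : ℝ, (-μ, 1) ∈ DV (Br k g) R (c2 V) ∧ (-μ - 1, 1) ∈ DV (Br k g) R (c2 V)

/-- the field `l8` of `LocF` (helper48) -/
def L8 (k : Type) (p : ℕ) {K : Type} [Field k] [Field K] [Algebra k K] {n : ℕ}
    (φ : K → K) (g : Fin n → K) (E : Set K) : Prop :=
  ∀ (κ Γ : Type) [Field κ] [Algebra k κ] [AddCommGroup Γ] [LinearOrder Γ]
    [IsOrderedAddMonoid Γ] (V : K → Γ) (x : Fin 2 → K) (ex : K → Fin 2 → ℤ) (ac : K → κ)
    (φb : κ → κ) (N : Set (Fin 2 → ℤ)) (L : K → AddMonoidAlgebra κ (Fin 2 → ℤ)),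
    Chart k p φ g V x ex ac φb N L → ∀ (u : Fin 2 → ℝ) (w : K → ℝ), Good N u →
    OnCh k p φ g L u w → Dv w → SG (Br k g) w → (∃ f, w f ≠ 0) → ∀ z ∈ E, w z = 0 →
    (∀ m, (L z).coeff m ≠ 0 → m = 0 ∨ 0 < wt u m) → False

/-- real points as multiples of normalised ones -/
theorem to_int {p : ℕ} [Fact p.Prime] {k : Type} [Field k] [CharP k p] [PerfectRing k p]
    {Λ : Type} [Group Λ] {cl : Λ →* Multiplicative (ℤ × ℤ)} {K : Type} [Field K] [Algebra k K]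
    {B : Subalgebra k K} {res : B →ₐ[k] Lau k} {T : Λ → K} {κ0 : B} {φ : K → K} {R : K → ℤ}
    {n : ℕ} {g : Fin n → K} (C : Core p k cl B res T κ0 φ R g) {w : K → ℝ} (hw : InZ k p φ w)
    (hd : Dv w) (ha : AtInf (Br k g) w) :
    ∃ (w' : K → ℤ) (c : ℝ), 0 < c ∧ InZ k p φ w' ∧ F2N.Nrm w' ∧
      (w = fun f => c * (w' f : ℝ)) ∧ ∃ f : B, w' f < 0 := by
  obtain ⟨γ, hγ, hn⟩ := hd
  obtain ⟨f0, hf0, hne, hneg⟩ := ha
  obtain ⟨w', c, hc, hi, hN, he⟩ := F2N.exists_norm p φ w hw γ (fun f => by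
    by_cases hf : f = 0
    · exact ⟨0, by rw [hf, hw.isv.zero]; simp⟩
    · obtain ⟨m, hm⟩ := hn f hf
      exact ⟨m, by rw [hm, zsmul_eq_mul]⟩) ⟨f0, hneg.ne⟩
  refine ⟨w', c, hc, hi, hN, funext he, ⟨f0, (C.Bg f0).2 hf0⟩, ?_⟩
  rw [he f0] at hneg
  have h1 : ((w' f0 : ℤ) : ℝ) < 0 := by
    by_contra h
    push Not at h
    exact absurd hneg (not_lt.2 (mul_nonneg hc.le h))
  exact_mod_cast h1

section

variable (p : ℕ) [Fact p.Prime] (k : Type) [Field k] [CharP k p] [PerfectRing k p] [IsAlgClosed k]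
  (Λ : Type) [Group Λ] (cl : Λ →* Multiplicative (ℤ × ℤ)) (K : Type) [Field K] [Algebra k K]
  (B : Subalgebra k K) (res : B →ₐ[k] Lau k) (T : Λ → K) (κ0 : B) (φ : K → K) (R : K → ℤ)
  (n : ℕ) (g : Fin n → K)

/-- THE LOCAL FACTS -/
theorem locF (hct : S_ct p k Λ cl K B res T κ0 φ R n g)
    (hld : S_ld p k Λ cl K B res T κ0 φ R n g)
    (hgen : S_gen p k Λ cl K B res T κ0 φ R n g) (hl1 : S_l1 p k Λ cl K B res T κ0 φ R n g)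
    (hl2 : S_l2 p k Λ cl K B res T κ0 φ R n g) (hl3 : S_l3 p k Λ cl K B res T κ0 φ R n g)
    (hl6 : S_l6 p k Λ cl K B res T κ0 φ R n g) (C : Core p k cl B res T κ0 φ R g)
    (hex : ¬ OntoF2 Λ)
    (hR : ∀ m : ℤ, RFields k p φ g (AS cl T m) (fun f => (R f : ℝ)))
    (h8 : L8 k p φ g (ES cl T)) :
    ∃ m : ℤ, LocF k p φ g (ES cl T) (AS cl T m) (fun f => (R f : ℝ)) := by
  obtain ⟨⟨m, hm⟩, hne⟩ := hgen C hex
  have hsub : AS cl T m ⊆ ES cl T := fun z ⟨l, h1, _, h3⟩ => ⟨l, h1, h3⟩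
  have hsc : ∀ (c : ℝ) (w' : K → ℤ) (z : K), 0 < c → c * ((w' z : ℤ) : ℝ) = 0 → w' z = 0 := by
    intro c w' z hc h
    have h2 := (mul_eq_zero.1 h).resolve_left hc.ne'
    exact_mod_cast h2
  refine ⟨m, ⟨hsub, hct C, (hR m).Rinz, (hR m).Rdv, (hR m).Rnn, (hR m).Rpos, (hR m).R9,
    (hR m).R7e, (hR m).R7u, (hR m).R7f, ?_, ?_, ?_, ?_, ?_, ?_, h8⟩⟩
  · exact hld C
  · intro w hw hd _
    exact hl1 C hex w hw hd
  · rintro w hw hd ha _ ⟨l, h1, h2, rfl⟩ hz _ ⟨l', h1', rfl⟩ hz'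
    obtain ⟨w', c, hc, hi, hN, rfl, hf⟩ := to_int C hw hd ha
    have h3 := (hm w' hi hN ((hne w' hi hN).1 hf) ⟨l, (hsc c w' _ hc hz).ge, h1, h2⟩).2
    exact ⟨l', h1', h3 l' (hsc c w' _ hc hz').ge, rfl⟩
  · intro w hw hd ha V hV hz hor
    obtain ⟨w', c, hc, hi, hN, rfl, hf⟩ := to_int C hw hd ha
    refine hl2 C hex m hm w' hi hN hf c hc V hV hz (hor.imp_right fun h z hz' h0 => ?_)
    exact h z hz' (by simp only [h0]; simp)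
  · intro w hw hd ha hsg V V' hV hz hP hV' hz' hP'
    obtain ⟨w', c, hc, hi, hN, rfl, hf⟩ := to_int C hw hd ha
    obtain ⟨z, hz1, hz2⟩ := hz
    obtain ⟨z', hz1', hz2'⟩ := hz'
    exact hl3 C hex w' hi hN hf c hc hsg V V' hV ⟨z, hsub hz1, hz2⟩ hP hV'
      ⟨z', hsub hz1', hz2'⟩ hP'
  · intro w hw hd ha hsg V V' hV hz hP hV' hz' _
    obtain ⟨w', c, hc, hi, hN, rfl, hf⟩ := to_int C hw hd ha
    obtain ⟨z, hz1, hz2⟩ := hz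
    obtain ⟨z', hz1', hz2'⟩ := hz'
    obtain ⟨ρ, hρ, h⟩ := hl6 C hex w' hi hN hf c hc hsg V V' hV ⟨z, hsub hz1, hz2⟩ hP hV'
      ⟨z', hsub hz1', hz2'⟩
    exact ⟨ρ, hρ, fun f hf hf0 hw0 => h f hf hf0 (hsc c w' _ hc hw0)⟩

end

end Pool.Agent.F2L
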