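import Pool.Agent.Lib.MP_305fdd_al.F2.L.Stm
import Pool.Agent.Lib.MP_305fdd_al.F2.PF.P_gor
import Pool.Agent.Lib.MP_305fdd_al.F2.PF.P_ext

/-!
# [F2L DV] A nonzero functional at a flag
-/

set_option autoImplicit false

namespace Pool.Agent.F2L

open Polynomial Pool.Agent.F2Ch Pool.Agent.F2 Pool.Agent.F2RF Pool.Agent.F2W Pool.Agent.F2D
open Pool.Agent.F2PF

private theorem dv_smul_fst (m : ℤ) (a : ℝ ×ₗ ℝ) : (ofLex (m • a)).1 = m * (ofLex a).1 := by
  have : ofLex (m • a) = m • ofLex a := rfl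
  rw [this, Prod.smul_fst, zsmul_eq_mul]

private theorem dv_smul_snd (m : ℤ) (a : ℝ ×ₗ ℝ) : (ofLex (m • a)).2 = m * (ofLex a).2 := by
  have : ofLex (m • a) = m • ofLex a := rfl
  rw [this, Prod.smul_snd, zsmul_eq_mul]

theorem p_DV (p : ℕ) [Fact p.Prime] (k : Type) [Field k] [CharP k p] [PerfectRing k p]
    [IsAlgClosed k] (Λ : Type) [Group Λ] (cl : Λ →* Multiplicative (ℤ × ℤ)) (K : Type) [Field K]
    [Algebra k K] (B : Subalgebra k K) (res : B →ₐ[k] Lau k) (T : Λ → K) (κ0 : B) (φ : K → K)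
    (R : K → ℤ) (n : ℕ) (g : Fin n → K)
    (hQ0 : S_Q0 p k Λ cl K B res T κ0 φ R n g) : S_DV p k Λ cl K B res T κ0 φ R n g := by
  intro hC κ _ _ w x ac φb hRF hneg c hc V hV hz C δ b hP
  have hwv : IsV w := hRF.inz.isv
  have hac := hRF.isac
  have hCv : IsV C := hP.plc.isv
  have hδ := hP.pos
  have hnt : ∀ f : B, res f = 0 → (f : K) ≠ 0 → w f = 0 → C (ac f) ≠ 0 := by
    intro f hf hf0 hwf hCf
    have hVf : V (f : K) = 0 := by
      rw [hP.eq _ hf0, hwf, hCf]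
      simp only [Int.cast_zero, mul_zero, add_zero]
      rfl
    obtain ⟨π, hπ0, hπ1⟩ := hP.plc.unif
    obtain ⟨y, hy0, hwy, hacy⟩ := hac.surj π hπ0
    have hgt := hQ0 hC (ℝ ×ₗ ℝ) V hV.inz hz ⟨x 0, y, hRF.ne, hy0, fun m m' h => ?_⟩ f hf
      (Or.inr (by rw [hVf]))
    · rcases hgt with h | h
      · exact hf0 h
      · rw [hVf] at h; exact lt_irrefl _ h
    · rw [hP.eq _ hRF.ne, hP.eq _ hy0, hRF.val, hwy, hacy, hπ1] at h
      have h1 : (m : ℝ) * (c * ((1 : ℤ) : ℝ)) + m' * (c * ((0 : ℤ) : ℝ)) = 0 := by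
        have := congrArg (fun a : ℝ ×ₗ ℝ => (ofLex a).1) h
        simp only [ofLex_add, Prod.fst_add, dv_smul_fst, ofLex_toLex] at this
        exact this
      have h2 : (m : ℝ) * (δ * (C (ac (x 0)) : ℝ) + b * ((1 : ℤ) : ℝ))
          + m' * (δ * ((1 : ℤ) : ℝ) + b * ((0 : ℤ) : ℝ)) = 0 := by
        have := congrArg (fun a : ℝ ×ₗ ℝ => (ofLex a).2) h
        simp only [ofLex_add, Prod.snd_add, dv_smul_snd, ofLex_toLex] at this
        exact this
      push_cast at h1 h2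
      have hm : (m : ℝ) = 0 := by
        have h3 : (m : ℝ) * c = 0 := by linarith
        exact (mul_eq_zero.mp h3).resolve_right hc.ne'
      have hm' : (m' : ℝ) = 0 := by
        rw [hm] at h2
        have h3 : (m' : ℝ) * δ = 0 := by linarith
        exact (mul_eq_zero.mp h3).resolve_right hδ.ne'
      exact ⟨by exact_mod_cast hm, by exact_mod_cast hm'⟩
  refine ⟨hnt, ?_⟩
  have hBr : ∀ f : K, f ∈ Br k g ↔ f ∈ B := fun f => (hC.Bg f).symm
  -- Gordan
  obtain ⟨u, hu0, hu⟩ := p_gor {s : ℤ × ℤ | ∃ f : B, res f = 0 ∧ (f : K) ≠ 0 ∧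
      s = (w (f : K), C (ac (f : K)))}
    (by
      rintro _ ⟨f, hf, hf0, rfl⟩ _ ⟨f', hf', hf0', rfl⟩
      refine ⟨f * f', by rw [map_mul, hf, zero_mul], mul_ne_zero hf0 hf0', ?_⟩
      rw [show ((f * f' : B) : K) = (f : K) * (f' : K) from rfl, hac.mul,
        hwv.mul _ _ hf0 hf0', hCv.mul _ _ (hac.ne _ hf0) (hac.ne _ hf0')]
      rfl)
    (by
      rintro ⟨f, hf, hf0, h⟩
      have h1 := congrArg Prod.fst h
      have h2 := congrArg Prod.snd h
      exact hnt f hf hf0 h1.symm h2.symm)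
  have hDV : u ∈ DV (Br k g) (fun f => (w f : ℝ)) (fun f => (C (ac f) : ℝ)) := by
    refine (p_ext K (Br k g) {f : K | ∃ f' : B, res f' = 0 ∧ (f' : K) = f} ?_ ?_ ?_).1 _ _ ?_ ?_ u ?_
    · intro a ha a' ha'
      rw [hBr] at ha ha' ⊢
      exact B.mul_mem ha ha'
    · rintro a ha _ ⟨f', hf', rfl⟩
      rw [hBr] at ha
      exact ⟨⟨a, ha⟩ * f', by rw [map_mul, hf', mul_zero], rfl⟩
    · exact ⟨κ0, ⟨κ0, hC.κres, rfl⟩, fun h => hC.κne (by exact_mod_cast h)⟩
    · intro f f' hf hf'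
      rw [hwv.mul _ _ hf hf']; push_cast; ring
    · intro f f' hf hf'
      rw [hac.mul, hCv.mul _ _ (hac.ne _ hf) (hac.ne _ hf')]; push_cast; ring
    · rintro _ ⟨f, hf, rfl⟩ hf0
      exact hu _ ⟨f, hf, hf0, rfl⟩
  have key : ∀ f ∈ Br k g, f ≠ 0 → u.1 * (w f : ℝ) + u.2 * (C (ac f) : ℝ) ≤ 0 :=
    fun f hf hf0 => hDV f hf hf0
  have hc2 : ∀ f, f ≠ 0 → c2 V f = δ * (C (ac f) : ℝ) + b * (w f : ℝ) := by
    intro f hf0
    unfold c2
    rw [hP.eq f hf0, ofLex_toLex]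
  rcases lt_trichotomy u.2 0 with he | he | he
  · -- `b_0` type
    right; right
    refine ⟨(u.1 * δ / (-u.2) + b) / c, fun f hf hf0 => ?_⟩
    have h1 := key f hf hf0
    change (u.1 * δ / (-u.2) + b) / c * (c * (w f : ℝ)) + -1 * c2 V f ≤ 0
    rw [hc2 f hf0]
    have h2 : (u.1 * δ / (-u.2) + b) / c * (c * (w f : ℝ)) + -1 *
        (δ * (C (ac f) : ℝ) + b * (w f : ℝ)) =
        (u.1 * (w f : ℝ) + u.2 * (C (ac f) : ℝ)) * (δ / (-u.2)) := by
      have h3 : u.2 ≠ 0 := he.ne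
      field_simp
      ring
    rw [h2]
    exact mul_nonpos_of_nonpos_of_nonneg h1 (div_nonneg hδ.le (by linarith))
  · -- semi-good
    left
    have hu1 : u.1 ≠ 0 := by
      intro h
      exact hu0 (Prod.ext h he)
    rcases lt_or_gt_of_ne hu1 with h1 | h1
    · exfalso
      obtain ⟨f, hf⟩ := hneg
      have hf0 : (f : K) ≠ 0 := by
        intro h
        rw [h, hwv.zero] at hf
        exact lt_irrefl _ hf
      have h2 := key f ((hBr _).mpr f.2) hf0
      rw [he, zero_mul, add_zero] at h2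
      have h3 : ((w (f : K) : ℤ) : ℝ) < 0 := by exact_mod_cast hf
      nlinarith
    · intro f hf hf0
      have h2 := key f hf hf0
      rw [he, zero_mul, add_zero] at h2
      have h3 : (w f : ℝ) ≤ 0 := by
        by_contra h4
        push Not at h4
        nlinarith
      exact mul_nonpos_of_nonneg_of_nonpos hc.le h3
  · -- pole type
    right; left
    refine ⟨(u.1 * δ / u.2 - b) / c, fun f hf hf0 => ?_⟩
    have h1 := key f hf hf0
    change (u.1 * δ / u.2 - b) / c * (c * (w f : ℝ)) + 1 * c2 V f ≤ 0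
    rw [hc2 f hf0]
    have h2 : (u.1 * δ / u.2 - b) / c * (c * (w f : ℝ)) + 1 *
        (δ * (C (ac f) : ℝ) + b * (w f : ℝ)) =
        (u.1 * (w f : ℝ) + u.2 * (C (ac f) : ℝ)) * (δ / u.2) := by
      have h3 : u.2 ≠ 0 := he.ne'
      field_simp
      ring
    rw [h2]
    exact mul_nonpos_of_nonpos_of_nonneg h1 (div_nonneg hδ.le he.le)

end Pool.Agent.F2L
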