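import Pool.Agent.Lib.MP_305fdd_al.F2.L.Stm
import Pool.Agent.Lib.MP_305fdd_al.F2.ChMain

/-!
# MP_305fdd_al, F_2, section L, piece FD3: the place of a flag with an elliptic element
-/

set_option autoImplicit false

namespace Pool.Agent.F2L

open Polynomial Pool.Agent.F2Ch Pool.Agent.F2 Pool.Agent.F2RF Pool.Agent.F2W Pool.Agent.F2D
open Pool.Agent.F2PF

/-- the components are additive -/
private def fd3_fst : ℝ ×ₗ ℝ →+ ℝ where
  toFun v := (ofLex v).1
  map_zero' := rfl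
  map_add' _ _ := rfl

private def fd3_snd : ℝ ×ₗ ℝ →+ ℝ where
  toFun v := (ofLex v).2
  map_zero' := rfl
  map_add' _ _ := rfl

/-- if `κ` is algebraic over the algebraically closed field `k` then the residue of `z` is constant -/
private theorem fd3_alg (k : Type) [Field k] [IsAlgClosed k] {K Γ κ : Type} [Field K]
    [Algebra k K] [AddCommGroup Γ] [LinearOrder Γ] [IsOrderedAddMonoid Γ] [Field κ] [Algebra k κ]
    {r : ℕ} {V : K → Γ} {x : Fin r → K} {ac : K → κ} (hV : Triv k V) (h : IsAC k V x ac)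
    (z : K) (hz : V z = 0) (hP : ∀ P : k[X], P ≠ 0 → aeval z P ≠ 0 ∧ V (aeval z P) = 0) :
    Algebra.trdeg k κ ≠ 0 := by
  intro h0
  have hal : Algebra.IsAlgebraic k κ := trdeg_eq_zero_iff.mp h0
  obtain ⟨a, ha⟩ := (IsAlgClosed.algebraMap_bijective_of_isIntegral (k := k) (K := κ)).2 (ac z)
  have h1 := hP (X - C a) (X_sub_C_ne_zero a)
  rw [map_sub, aeval_X, aeval_C] at h1
  have hz0 : z ≠ 0 := by
    have h2 := (hP X X_ne_zero).1
    rwa [aeval_X] at h2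
  have h3 := h.add 0 z (algebraMap k K (- a)) (Or.inr hz.ge) (Or.inr (hV _).ge)
  rw [map_neg, ← sub_eq_add_neg] at h3
  have h4 : lc V ac 0 (z - algebraMap k K a) = ac (z - algebraMap k K a) := if_pos h1
  have h5 : lc V ac 0 z = ac z := if_pos ⟨hz0, hz⟩
  have h6 : lc V ac 0 (- algebraMap k K a) = - algebraMap k κ a := by
    by_cases ha0 : a = 0
    · rw [ha0, map_zero, map_zero, neg_zero, neg_zero]
      exact if_neg (fun h => h.1 rfl)
    · rw [← map_neg, ← map_neg, ← h.alg]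
      refine if_pos ⟨?_, hV _⟩
      rw [Ne, map_eq_zero]
      exact neg_ne_zero.mpr ha0
  rw [h4, h5, h6, ha, add_neg_cancel] at h3
  exact h.ne _ h1.1 h3

/-- integer solutions of `m 0 * w 0 + m 1 * w 1 = 0` -/
private theorem fd3_two (w0 w1 : ℤ) (hw : w0 ≠ 0 ∨ w1 ≠ 0) : ∃ h0 h1 : ℤ, ∀ m0 m1 : ℤ,
    m0 * w0 + m1 * w1 = 0 → ∃ j : ℤ, m0 = j * h0 ∧ m1 = j * h1 := by
  have hd : (Int.gcd w0 w1 : ℤ) ≠ 0 := by
    intro h
    have h' : Int.gcd w0 w1 = 0 := by exact_mod_cast h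
    rw [Int.gcd_eq_zero_iff] at h'
    omega
  obtain ⟨a, ha⟩ := Int.gcd_dvd_left (a := w0) (b := w1)
  obtain ⟨b, hb⟩ := Int.gcd_dvd_right (a := w0) (b := w1)
  have hbez : (Int.gcd w0 w1 : ℤ) = w0 * Int.gcdA w0 w1 + w1 * Int.gcdB w0 w1 :=
    Int.gcd_eq_gcd_ab w0 w1
  generalize (Int.gcd w0 w1 : ℤ) = d at *
  generalize Int.gcdA w0 w1 = s at *
  generalize Int.gcdB w0 w1 = t at *
  subst ha
  subst hb
  have hab : a * s + b * t = 1 := by
    apply mul_left_cancel₀ hd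
    linear_combination - hbez
  refine ⟨b, - a, fun m0 m1 hm => ⟨m0 * t - m1 * s, ?_, ?_⟩⟩
  · have h1 : m0 * a + m1 * b = 0 := by
      apply mul_left_cancel₀ hd
      linear_combination hm
    linear_combination (- m0) * hab + s * h1
  · have h1 : m0 * a + m1 * b = 0 := by
      apply mul_left_cancel₀ hd
      linear_combination hm
    linear_combination (- m1) * hab + t * h1

/-- the values of the second component on the elements with first component `0` are cyclic -/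
private theorem fd3_cyc {K : Type} [Field K] (w : K → ℤ) (c : ℝ) (hc : 0 < c)
    (V : K → ℝ ×ₗ ℝ) (hfst : ∀ f, (ofLex (V f)).1 = c * (w f : ℝ)) (hw : ∃ f, f ≠ 0 ∧ w f ≠ 0)
    {r : ℕ} (hr : r ≤ 2) (x : Fin r → K) (ex : K → Fin r → ℤ) (hx : IsVB V x ex) :
    ∃ γ : ℝ, ∀ f, f ≠ 0 → w f = 0 → ∃ n : ℤ, (ofLex (V f)).2 = n * γ := by
  have hF : ∀ f, f ≠ 0 → c * (w f : ℝ) = ∑ i, (ex f i : ℝ) * (c * (w (x i) : ℝ)) := by
    intro f hf
    have h1 : fd3_fst (V f) = fd3_fst (wt (fun i => V (x i)) (ex f)) := by rw [← hx.gen f hf]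
    unfold wt at h1
    rw [map_sum] at h1
    have h2 : fd3_fst (V f) = c * (w f : ℝ) := hfst f
    rw [← h2, h1]
    refine Finset.sum_congr rfl (fun i _ => ?_)
    rw [map_zsmul, zsmul_eq_mul]
    congr 1
    exact hfst (x i)
  have hW : ∀ f, f ≠ 0 → w f = ∑ i, ex f i * w (x i) := by
    intro f hf
    have h1 := hF f hf
    have h2 : c * (w f : ℝ) = c * ((∑ i, ex f i * w (x i) : ℤ) : ℝ) := by
      rw [h1]
      push_cast
      rw [Finset.mul_sum]
      refine Finset.sum_congr rfl (fun i _ => ?_)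
      ring
    exact_mod_cast mul_left_cancel₀ hc.ne' h2
  have hS : ∀ f, f ≠ 0 → (ofLex (V f)).2 = ∑ i, (ex f i : ℝ) * (ofLex (V (x i))).2 := by
    intro f hf
    have h1 : fd3_snd (V f) = fd3_snd (wt (fun i => V (x i)) (ex f)) := by rw [← hx.gen f hf]
    unfold wt at h1
    rw [map_sum] at h1
    have h2 : fd3_snd (V f) = (ofLex (V f)).2 := rfl
    rw [← h2, h1]
    refine Finset.sum_congr rfl (fun i _ => ?_)
    rw [map_zsmul, zsmul_eq_mul]
    rfl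
  obtain ⟨f0, hf0, hwf0⟩ := hw
  interval_cases r
  · exact absurd (hW f0 hf0) (by simpa using hwf0)
  · refine ⟨0, fun f hf hwf => ⟨0, ?_⟩⟩
    have h1 := hW f0 hf0
    have h2 := hW f hf
    rw [Fin.sum_univ_one] at h1 h2
    rw [hwf] at h2
    have h3 : ex f 0 = 0 := by
      rcases mul_eq_zero.mp h2.symm with h | h
      · exact h
      · rw [h, mul_zero] at h1
        exact absurd h1 hwf0
    rw [hS f hf, Fin.sum_univ_one, h3]
    simp
  · obtain ⟨h0, h1, hh⟩ := fd3_two (w (x 0)) (w (x 1)) (by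
      by_contra hcon
      push Not at hcon
      have h1 := hW f0 hf0
      rw [Fin.sum_univ_two, hcon.1, hcon.2] at h1
      simp at h1
      exact hwf0 h1)
    refine ⟨(h0 : ℝ) * (ofLex (V (x 0))).2 + (h1 : ℝ) * (ofLex (V (x 1))).2, ?_⟩
    intro f hf hwf
    have h2 := hW f hf
    rw [Fin.sum_univ_two, hwf] at h2
    obtain ⟨j, hj0, hj1⟩ := hh _ _ h2.symm
    refine ⟨j, ?_⟩
    rw [hS f hf, Fin.sum_univ_two, hj0, hj1]
    push_cast
    ring

theorem p_FD3 (p : ℕ) [Fact p.Prime] (k : Type) [Field k] [CharP k p] [PerfectRing k p]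
    [IsAlgClosed k] (Λ : Type) [Group Λ] (cl : Λ →* Multiplicative (ℤ × ℤ)) (K : Type) [Field K]
    [Algebra k K] (B : Subalgebra k K) (res : B →ₐ[k] Lau k) (T : Λ → K) (κ0 : B) (φ : K → K)
    (R : K → ℤ) (n : ℕ) (g : Fin n → K) (hFD2 : S_FD2)
    (hbas : S_bas p k Λ cl K B res T κ0 φ R n g) : S_FD3 p k Λ cl K B res T κ0 φ R n g := by
  intro hcore κ _ _ w x ac φb hR c hc V hV hel
  obtain ⟨hgen, -, -, -, -, hb6, -, -⟩ := hbas hcore
  obtain ⟨Q, b, hQ, hform⟩ := hFD2 p k K κ φ w x ac φb hcore.fra.pinv hR c hc V hV.inz hV.fst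
  obtain ⟨b0, ρ0, hpb⟩ := hcore.pb
  obtain ⟨r, s, κ', _, _, x', ex', ac', φb', N, L, hch, hrs, htr, -, -⟩ :=
    t_X2 p k K (ℝ ×ₗ ℝ) n g hgen 3 b0 ρ0 hpb φ hcore.fra.pinv hcore.fra.one V hV.inz
  -- `s ≠ 0`
  have hs : s ≠ 0 := by
    rintro rfl
    obtain ⟨z, ⟨l, hl, rfl⟩, hz⟩ := hel
    refine fd3_alg k hV.inz.triv hch.isac (T l) hz (hb6 (ℝ ×ₗ ℝ) V hV.inz l hl hz) ?_
    rw [htr]
    simp
  -- the values are cyclic
  obtain ⟨γ, hγ⟩ := fd3_cyc w c hc V hV.fst ⟨x 0, hR.ne, by rw [hR.val]; exact one_ne_zero⟩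
    (by omega) x' ex' hch.vb
  have hQγ : ∀ y, ∃ m : ℤ, Q y = m * γ := by
    intro y
    by_cases hy : y = 0
    · exact ⟨0, by rw [hy, hQ.isv.zero]; simp⟩
    · obtain ⟨f, hf, hwf, hacf⟩ := hR.isac.surj y hy
      obtain ⟨m, hm⟩ := hγ f hf hwf
      refine ⟨m, ?_⟩
      rw [← hm, hform f hf, hwf, hacf]
      simp
  have hQ0 : ∃ y, Q y ≠ 0 := by
    obtain ⟨f, hf, hwf, hc2⟩ := hV.nt
    have hwf' : w f = 0 := by
      rcases mul_eq_zero.mp hwf with h | h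
      · exact absurd h hc.ne'
      · exact_mod_cast h
    refine ⟨ac f, fun h => hc2 ?_⟩
    unfold c2
    rw [hform f hf, hwf', h]
    simp
  obtain ⟨C, δ, hδ, hCz, hCn, hQC⟩ := F2N.exists_norm p φb Q hQ γ hQγ hQ0
  refine ⟨C, δ, b, ⟨⟨hCz.isv, hCz.triv, hCn⟩, hCz.compat, hδ, fun f hf => ?_⟩⟩
  rw [hform f hf, hQC]

end Pool.Agent.F2L
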