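import Pool.Agent.Lib.MP_305fdd_al.F2.L.Stm

/-!
# MP_305fdd_al, F_2 project, section L: the piece [F2L L1]

The classes of the elliptic elements of a divisorial point which is negative somewhere on the trace ring
are pairwise dependent.
-/

set_option autoImplicit false

namespace Pool.Agent.F2L

open Polynomial Pool.Agent.F2Ch Pool.Agent.F2 Pool.Agent.F2RF Pool.Agent.F2W Pool.Agent.F2D
open Pool.Agent.F2PF

private theorem L1_one {K : Type} [Field K] {w : K → ℤ} (hw : IsV w) : w 1 = 0 := by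
  have h := hw.mul 1 1 one_ne_zero one_ne_zero
  rw [mul_one] at h
  linarith

private theorem L1_pow {K : Type} [Field K] {w : K → ℤ} (hw : IsV w) {x : K} (hx : x ≠ 0) (n : ℕ) :
    w (x ^ n) = n * w x := by
  induction n with
  | zero => simp [L1_one hw]
  | succ n ih =>
    rw [pow_succ, hw.mul _ _ (pow_ne_zero n hx) hx, ih]
    push_cast
    ring

private theorem L1_add {K : Type} [Field K] {w : K → ℤ} (hw : IsV w) {a b : K} (ha : Ge w 0 a)
    (hb : Ge w 0 b) : Ge w 0 (a + b) := by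
  by_cases h0 : a = 0
  · rw [h0, zero_add]
    exact hb
  by_cases h1 : b = 0
  · rw [h1, add_zero]
    exact ha
  by_cases h2 : a + b = 0
  · exact Or.inl h2
  · refine Or.inr (le_trans (le_min ?_ ?_) (hw.add a b h0 h1 h2))
    · exact ha.resolve_left h0
    · exact hb.resolve_left h1

private theorem L1_ind {a b c d : ℤ} (h : ¬ a * d = b * c) (m n : ℤ)
    (h1 : m * a + n * c = 0) (h2 : m * b + n * d = 0) : m = 0 ∧ n = 0 := by
  have h0 : a * d - b * c ≠ 0 := sub_ne_zero.2 h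
  constructor
  · have : m * (a * d - b * c) = 0 := by linear_combination d * h1 - c * h2
    exact (mul_eq_zero.1 this).resolve_right h0
  · have : n * (a * d - b * c) = 0 := by linear_combination a * h2 - b * h1
    exact (mul_eq_zero.1 this).resolve_right h0

private theorem L1_ee (k : Type) [Field k] : ee k 0 - 2 = 0 := by
  have h : (2 : Lau k) = AddMonoidAlgebra.single 0 1 + AddMonoidAlgebra.single 0 1 := by
    rw [← AddMonoidAlgebra.one_def]
    norm_num
  rw [ee, neg_zero, h, sub_self]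

theorem p_L1 (p : ℕ) [Fact p.Prime] (k : Type) [Field k] [CharP k p] [PerfectRing k p]
    [IsAlgClosed k] (Λ : Type) [Group Λ] (cl : Λ →* Multiplicative (ℤ × ℤ)) (K : Type) [Field K]
    [Algebra k K] (B : Subalgebra k K) (res : B →ₐ[k] Lau k) (T : Λ → K) (κ0 : B) (φ : K → K)
    (R : K → ℤ) (n : ℕ) (g : Fin n → K) (h_Z6 : S_Z6) (h_Z7 : S_Z7) (h_A5 : S_A5) (h_X2 : S_X2)
    (h_DA1 : Pool.Agent.F2D.S_A1) (h_bas : S_bas p k Λ cl K B res T κ0 φ R n g) :
    S_L1 p k Λ cl K B res T κ0 φ R n g := by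
  intro hC hnot w hw hN hneg l l' hl hl'
  by_contra hdp
  obtain ⟨hfg, -, -, hrk, -⟩ := h_bas hC
  obtain ⟨b0, ρ0, hb⟩ := hC.pb
  obtain ⟨r, s, κ, _, _, x, ex, ac, φb, N, L, hCh, hrs, htr, -, -⟩ :=
    h_X2 p k K ℤ n g hfg 3 b0 ρ0 hb φ hC.fra.pinv hC.fra.one w hw
  have hr : r ≠ 0 := by
    rintro rfl
    obtain ⟨f, hf0, hf1⟩ := hN
    have h1 := hCh.vb.gen f hf0
    rw [hf1] at h1
    simp [wt] at h1
  have hs : Algebra.trdeg k κ ≤ 2 := by
    rw [htr]
    have : s ≤ 2 := by omega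
    exact_mod_cast this
  have hZ7 := h_Z7 k K ℤ κ w hw.isv hw.triv r x ac hCh.isac hs
  have hstar : ∀ f : B, res f = 0 → Ge w 0 (f : K) → Gt w 0 (f : K) := by
    refine h_Z6 p hC.odd k K ℤ B res φ hC.fra w hw.isv hw.triv hw.compat ⟨T l, hC.mem l⟩
      ⟨T l', hC.mem l'⟩ (Multiplicative.toAdd (cl l)) (Multiplicative.toAdd (cl l')) ?_
      (hC.res_T l) (hC.res_T l') (Or.inr hl) (Or.inr hl') hZ7
    intro m m' hm
    have h1 := congrArg Prod.fst hm
    have h2 := congrArg Prod.snd hm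
    simp only [Prod.fst_add, Prod.snd_add, Prod.smul_fst, Prod.smul_snd, smul_eq_mul,
      Prod.fst_zero, Prod.snd_zero] at h1 h2
    exact L1_ind hdp m m' h1 h2
  obtain ⟨f', hf'r, hf'w⟩ := h_A5 k K B res w hw.isv
    ⟨κ0, hC.κres, fun h => hC.κne (Subtype.ext h)⟩ hneg
  have hf'0 : (f' : K) ≠ 0 := by
    intro h
    rw [h, hw.isv.zero] at hf'w
    exact lt_irrefl _ hf'w
  by_cases hcase : ∃ f : B, res f = 0 ∧ (f : K) ≠ 0 ∧ 0 < w (f : K)
  · obtain ⟨f, hfr, hf0, hfw⟩ := hcase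
    obtain ⟨a, ha⟩ : ∃ a : ℕ, (a : ℤ) = w (f : K) := ⟨(w (f : K)).toNat, Int.toNat_of_nonneg hfw.le⟩
    obtain ⟨a', ha'⟩ : ∃ a' : ℕ, (a' : ℤ) = -w (f' : K) :=
      ⟨(-w (f' : K)).toNat, Int.toNat_of_nonneg (by linarith)⟩
    have ha'0 : a' ≠ 0 := by
      rintro rfl
      push_cast at ha'
      linarith
    have h1 : res (f ^ a' * f' ^ a) = 0 := by
      rw [map_mul, map_pow, hfr, zero_pow ha'0, zero_mul]
    have h2 : ((f ^ a' * f' ^ a : B) : K) ≠ 0 := by
      push_cast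
      exact mul_ne_zero (pow_ne_zero _ hf0) (pow_ne_zero _ hf'0)
    have h3 : w ((f ^ a' * f' ^ a : B) : K) = 0 := by
      push_cast
      rw [hw.isv.mul _ _ (pow_ne_zero _ hf0) (pow_ne_zero _ hf'0), L1_pow hw.isv hf0,
        L1_pow hw.isv hf'0, ha, ha']
      ring
    rcases hstar _ h1 (Or.inr h3.ge) with h4 | h4
    · exact h2 h4
    · rw [h3] at h4
      exact lt_irrefl _ h4
  · obtain ⟨M, _, π, hπ1, hπ2⟩ := hC.pi
    refine hnot (h_DA1 Λ K ℤ M T w cl π hC.pc hC.irr hw.isv ⟨1, one_pos, fun f _ => ⟨w f, by simp⟩⟩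
      hrk hπ2 fun u hu hcu => (hπ1 u).2 ?_)
    have hr0 : res (⟨T u, hC.mem u⟩ - 2) = 0 := by
      rw [map_sub, hC.res_T u, hcu, map_ofNat]
      exact L1_ee k
    have hge : Ge w 0 (((⟨T u, hC.mem u⟩ - 2 : B)) : K) := by
      have h1 : (((⟨T u, hC.mem u⟩ - 2 : B)) : K) = T u + algebraMap k K (-2) := by
        have h2 : ((2 : B) : K) = 2 := rfl
        have h3 : algebraMap k K (-2) = -2 := by
          rw [map_neg, map_ofNat]
        rw [h3]
        show T u - ((2 : B) : K) = _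
        rw [h2, sub_eq_add_neg]
      rw [h1]
      refine L1_add hw.isv (Or.inr hu) ?_
      exact Or.inr (hw.triv (-2)).ge
    rcases hstar _ hr0 hge with h4 | h4
    · have h5 : T u - 2 = 0 := h4
      exact sub_eq_zero.1 h5
    · by_cases h5 : (((⟨T u, hC.mem u⟩ - 2 : B)) : K) = 0
      · have h6 : T u - 2 = 0 := h5
        exact sub_eq_zero.1 h6
      · exact absurd ⟨_, hr0, h5, h4⟩ hcase

end Pool.Agent.F2L
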