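import Pool.Agent.Lib.MP_305fdd_al.F2.L.Stm
import Pool.Agent.Lib.MP_305fdd_al.F2.ChMain
import Pool.Agent.Lib.MP_305fdd_al.F2.W.Z0
import Pool.Agent.Lib.MP_305fdd_al.F2.W.Z2
import Pool.Agent.Lib.MP_305fdd_al.F2.W.Z3

/-!
# MP_305fdd_al, F_2 project, section L: piece Q0
-/

set_option autoImplicit false

namespace Pool.Agent.F2L

open Polynomial Pool.Agent.F2Ch Pool.Agent.F2 Pool.Agent.F2RF Pool.Agent.F2W Pool.Agent.F2D
open Pool.Agent.F2PF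

/-- two independent values: the rank is at least two -/
private theorem Q0_rank {K Γ : Type} [Field K] [AddCommGroup Γ] [LinearOrder Γ]
    [IsOrderedAddMonoid Γ] {V : K → Γ} {r : ℕ} {x : Fin r → K} {ex : K → Fin r → ℤ}
    (h : IsVB V x ex)
    (hr : ∃ x1 x2 : K, x1 ≠ 0 ∧ x2 ≠ 0 ∧ ∀ m m' : ℤ, m • V x1 + m' • V x2 = 0 → m = 0 ∧ m' = 0) :
    2 ≤ r := by
  obtain ⟨x1, x2, h1, h2, hi⟩ := hr
  have e1 := h.gen x1 h1
  have e2 := h.gen x2 h2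
  unfold wt at e1 e2
  by_contra hlt
  rcases r with _ | _ | r
  · rw [Finset.univ_eq_empty, Finset.sum_empty] at e1
    have h3 := (hi 1 0 (by rw [e1, smul_zero, zero_smul, add_zero])).1
    exact one_ne_zero h3
  · rw [Fin.sum_univ_one] at e1 e2
    obtain ⟨h3, h4⟩ := hi (ex x2 0) (-(ex x1 0)) (by
      rw [e1, e2, smul_smul, smul_smul, ← add_smul, neg_mul, mul_comm, add_neg_cancel, zero_smul])
    rw [neg_eq_zero] at h4
    rw [h4, zero_smul] at e1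
    have h5 := (hi 1 0 (by rw [e1, smul_zero, zero_smul, add_zero])).1
    exact one_ne_zero h5
  · omega

theorem p_Q0 (p : ℕ) [Fact p.Prime] (k : Type) [Field k] [CharP k p] [PerfectRing k p]
    [IsAlgClosed k] (Λ : Type) [Group Λ] (cl : Λ →* Multiplicative (ℤ × ℤ)) (K : Type) [Field K]
    [Algebra k K] (B : Subalgebra k K) (res : B →ₐ[k] Lau k) (T : Λ → K) (κ0 : B) (φ : K → K)
    (R : K → ℤ) (n : ℕ) (g : Fin n → K) : S_Q0 p k Λ cl K B res T κ0 φ R n g := by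
  intro hC Γ _ _ _ V hV hz hr f hf hge
  have hfrac : FracGen k g := by
    intro x
    obtain ⟨a, b, hb, e⟩ := hC.fra.gen x
    obtain ⟨qa, ha⟩ := (hC.Bg a).1 a.2
    obtain ⟨qb, hqb⟩ := (hC.Bg b).1 b.2
    exact ⟨qa, qb, by rw [hqb]; exact hb, by rw [hqb, ha]; exact e⟩
  obtain ⟨b0, ρ0, hPB⟩ := hC.pb
  obtain ⟨r, s, κ, i1, i2, x, ex, ac, φb, N, L, hch, hrs, htr, -, -⟩ :=
    t_X2 p k K Γ n g hfrac 3 b0 ρ0 hPB φ hC.fra.pinv hC.fra.one V hV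
  have hr2 := Q0_rank hch.vb hr
  have hs : Algebra.trdeg k κ ≤ 1 := by
    rw [htr]
    have h1 : s ≤ 1 := by omega
    exact_mod_cast h1
  obtain ⟨_, ⟨l, hl, rfl⟩, hVl⟩ := hz
  exact p_Z2 p_Z0 p hC.odd k K Γ B res φ hC.fra V hV.isv hV.triv hV.compat ⟨T l, hC.mem l⟩
    (Multiplicative.toAdd (cl l)) (fun h => hl (toAdd_eq_zero.1 h)) (hC.res_T l)
    (Or.inr hVl.ge) (p_Z3 k K Γ κ V hV.isv hV.triv r x ac hch.isac hs) f hf hge

end Pool.Agent.F2L
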