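import Pool.Agent.Lib.MP_305fdd_al.F2.L.Stm

/-!
# MP_305fdd_al, F_2 project, section L: piece ct
-/

set_option autoImplicit false

namespace Pool.Agent.F2L

open Polynomial Pool.Agent.F2Ch Pool.Agent.F2 Pool.Agent.F2RF Pool.Agent.F2W Pool.Agent.F2D
open Pool.Agent.F2PF

private theorem ct_lin (k : Type) [Field k] (c : ℤ × ℤ) (hc : c ≠ 0) : ct (ee k c) = 0 := by
  unfold ct ee
  simp only [AddMonoidAlgebra.coeff_add, Finsupp.coe_add, Pi.add_apply,
    AddMonoidAlgebra.coeff_single]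
  rw [Finsupp.single_eq_of_ne hc.symm, Finsupp.single_eq_of_ne (neg_ne_zero.2 hc).symm, add_zero]

private theorem ct_sq (k : Type) [Field k] (c : ℤ × ℤ) (hc : c ≠ 0) :
    ct (ee k c ^ 2) = 2 := by
  have h1 : ee k c ^ 2 = AddMonoidAlgebra.single (c + c) 1 +
      AddMonoidAlgebra.single (-(c + c)) 1 + AddMonoidAlgebra.single 0 2 := by
    have h2 : (AddMonoidAlgebra.single (0 : ℤ × ℤ) (2 : k)) =
        AddMonoidAlgebra.single 0 1 + AddMonoidAlgebra.single 0 1 := by
      rw [← AddMonoidAlgebra.single_add, one_add_one_eq_two]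
    unfold ee
    rw [sq, mul_add, add_mul, add_mul, AddMonoidAlgebra.single_mul_single,
      AddMonoidAlgebra.single_mul_single, AddMonoidAlgebra.single_mul_single,
      AddMonoidAlgebra.single_mul_single, one_mul, neg_add_cancel, add_neg_cancel, h2, neg_add]
    abel
  rw [h1]
  unfold ct
  have h3 : c + c ≠ 0 := by
    intro h
    apply hc
    have h5 : c.1 + c.1 = 0 := congrArg Prod.fst h
    have h6 : c.2 + c.2 = 0 := congrArg Prod.snd h
    exact Prod.ext (show c.1 = 0 by omega) (show c.2 = 0 by omega)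
  have h4 : -(c + c) ≠ 0 := neg_ne_zero.2 h3
  simp only [AddMonoidAlgebra.coeff_add, Finsupp.coe_add, Pi.add_apply,
    AddMonoidAlgebra.coeff_single, Finsupp.single_eq_same]
  rw [Finsupp.single_eq_of_ne h3.symm, Finsupp.single_eq_of_ne h4.symm, zero_add, zero_add]

theorem p_ct (p : ℕ) [Fact p.Prime] (k : Type) [Field k] [CharP k p] [PerfectRing k p]
    [IsAlgClosed k] (Λ : Type) [Group Λ] (cl : Λ →* Multiplicative (ℤ × ℤ)) (K : Type) [Field K]
    [Algebra k K] (B : Subalgebra k K) (res : B →ₐ[k] Lau k) (T : Λ → K) (κ0 : B) (φ : K → K)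
    (R : K → ℤ) (n : ℕ) (g : Fin n → K) : S_ct p k Λ cl K B res T κ0 φ R n g := by
  intro hC z hz
  obtain ⟨l, hl, rfl⟩ := hz
  have hp : p.Prime := Fact.out
  have hc : Multiplicative.toAdd (cl l) ≠ 0 := fun h => hl (toAdd_eq_zero.1 h)
  have h2 : (2 : k) ≠ 0 := by
    intro h
    have h1 : ((2 : ℕ) : k) = 0 := by exact_mod_cast h
    rw [CharP.cast_eq_zero_iff k p] at h1
    exact hC.odd ((Nat.prime_dvd_prime_iff_eq hp Nat.prime_two).mp h1)
  have hK : CharP K p := charP_of_injective_algebraMap (algebraMap k K).injective p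
  have hne : T l ≠ 0 := by
    intro h0
    have h1 : res ⟨T l, hC.mem l⟩ = 0 := by
      have h3 : (⟨T l, hC.mem l⟩ : B) = 0 := Subtype.ext h0
      rw [h3, map_zero]
    rw [hC.res_T] at h1
    have h3 := ct_sq k _ hc
    rw [h1, zero_pow two_ne_zero] at h3
    exact h2 h3.symm
  obtain ⟨N1, hN1⟩ := hC.fra.tau ⟨T l, hC.mem l⟩
  obtain ⟨N2, hN2⟩ := hC.fra.tau (⟨T l, hC.mem l⟩ ^ 2)
  have e1 := hN1 (max N1 N2) (le_max_left _ _)
  have e2 := hN2 (max N1 N2) (le_max_right _ _)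
  rw [hC.res_T, ct_lin k _ hc, map_zero] at e1
  rw [map_pow, hC.res_T, ct_sq k _ hc, map_ofNat] at e2
  refine ⟨(hC.Bg _).1 (hC.mem l), hne, max N1 N2, 2, ?_, h2, ?_⟩
  · exact pow_eq_zero_iff (pow_ne_zero _ hp.ne_zero) |>.1 e1
  · have h3 : (2 : K) ^ p ^ (max N1 N2) = 2 := by
      have h4 := map_natCast (iterateFrobenius K p (max N1 N2)) 2
      rw [iterateFrobenius_def] at h4
      exact_mod_cast h4
    have h5 : (φ^[max N1 N2] (T l ^ 2) - 2) ^ p ^ (max N1 N2) = 0 := by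
      rw [sub_pow_char_pow, h3]
      exact sub_eq_zero.2 e2
    rw [map_ofNat]
    exact sub_eq_zero.1 (pow_eq_zero_iff (pow_ne_zero _ hp.ne_zero) |>.1 h5)

end Pool.Agent.F2L
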