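import Pool.Agent.Lib.MP_305fdd_al.F2.L.Stm

/-!
# MP_305fdd_al, F_2 project, section L: [F2L ed], an element of an edge stabiliser
-/

set_option autoImplicit false

namespace Pool.Agent.F2L

open Polynomial Pool.Agent.F2Ch Pool.Agent.F2 Pool.Agent.F2RF Pool.Agent.F2W Pool.Agent.F2D
open Pool.Agent.F2PF

private theorem ed_v1 {K : Type} [Field K] {w : K → ℤ} (hv : IsV w) : w 1 = 0 := by
  have h := hv.mul 1 1 one_ne_zero one_ne_zero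
  rw [mul_one] at h
  omega

private theorem ed_inv {K : Type} [Field K] {w : K → ℤ} (hv : IsV w) {f : K} (hf : f ≠ 0)
    (h : w f = 0) : w f⁻¹ = 0 := by
  have h1 := hv.mul f f⁻¹ hf (inv_ne_zero hf)
  rw [mul_inv_cancel₀ hf, ed_v1 hv, h] at h1
  omega

theorem p_ed (p : ℕ) [Fact p.Prime] (k : Type) [Field k] [CharP k p] [PerfectRing k p]
    [IsAlgClosed k] (Λ : Type) [Group Λ] (cl : Λ →* Multiplicative (ℤ × ℤ)) (K : Type) [Field K]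
    [Algebra k K] (B : Subalgebra k K) (res : B →ₐ[k] Lau k) (T : Λ → K) (κ0 : B) (φ : K → K)
    (R : K → ℤ) (n : ℕ) (g : Fin n → K) (hL1 : S_L1 p k Λ cl K B res T κ0 φ R n g)
    (hbas : S_bas p k Λ cl K B res T κ0 φ R n g) (hA2 : F2D.S_A2) (hl1 : F2D.S_l1) :
    S_ed p k Λ cl K B res T κ0 φ R n g := by
  intro hC hF κ _ _ w x ac φb hR hneg
  obtain ⟨_, _, _, hrk, hb5, _, _, _⟩ := hbas hC
  have hv := hR.inz.isv
  have hnrm : F2N.Nrm w := ⟨x 0, hR.ne, hR.val⟩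
  have hdisc : F2D.Disc w := ⟨1, one_pos, fun f _ => ⟨w f, by simp⟩⟩
  rcases hA2 Λ K ℤ T w cl hC.pc hC.irr hv hdisc hrk (hL1 hC hF w hR.inz hnrm hneg) with
    h | ⟨z, g', ψ, h0, hz, hE⟩
  · exact absurd h hF
  have hTne : T z ≠ 0 := ((hb5 ℤ w hR.inz).2 z).1
  have hTz : w (T z) = 0 := le_antisymm ((hb5 ℤ w hR.inz).2 z).2 h0
  refine ⟨z, g', ψ, hz, hTz, hE, ?_⟩
  have hroot : Gt w 0 (T z - (ψ + ψ⁻¹)) := hl1 Λ K ℤ T w z g' ψ hC.pc hv hE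
  have hinv : w ψ⁻¹ = 0 := ed_inv hv hE.ne hE.val
  have hge : Ge w 0 (ψ + ψ⁻¹) := by
    by_cases h : ψ + ψ⁻¹ = 0
    · exact Or.inl h
    · right
      have h1 := hv.add ψ ψ⁻¹ hE.ne (inv_ne_zero hE.ne) h
      rwa [hE.val, hinv, min_self] at h1
  have hge' : Ge w 0 (T z - (ψ + ψ⁻¹)) := hroot.imp id le_of_lt
  have h1 := hR.isac.add 0 (ψ + ψ⁻¹) (T z - (ψ + ψ⁻¹)) hge hge'
  have h2 := hR.isac.add 0 ψ ψ⁻¹ (Or.inr hE.val.ge) (Or.inr hinv.ge)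
  have h3 : lc w ac 0 (T z - (ψ + ψ⁻¹)) = 0 := by
    unfold lc
    rw [if_neg]
    rintro ⟨h, h'⟩
    rcases hroot with h4 | h4
    · exact h h4
    · omega
  have h4 : lc w ac 0 ψ = ac ψ := if_pos ⟨hE.ne, hE.val⟩
  have h5 : lc w ac 0 ψ⁻¹ = ac ψ⁻¹ := if_pos ⟨inv_ne_zero hE.ne, hinv⟩
  have h6 : lc w ac 0 (T z) = ac (T z) := if_pos ⟨hTne, hTz⟩
  rw [add_sub_cancel, h6, h3, add_zero, h2, h4, h5] at h1
  have h7 : ac ψ * ac ψ⁻¹ = 1 := by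
    rw [← hR.isac.mul, mul_inv_cancel₀ hE.ne]
    have h8 := hR.isac.alg 1
    rwa [map_one, map_one] at h8
  rw [h1, eq_inv_of_mul_eq_one_right h7]

end Pool.Agent.F2L
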