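import Pool.Agent.Lib.MP_305fdd_al.F2.L.Stm
import Pool.Agent.Lib.MP_305fdd_al.F2.D.Main

/-!
# MP_305fdd_al, F_2 project, section L, piece ell
-/

set_option autoImplicit false

namespace Pool.Agent.F2L

open Polynomial Pool.Agent.F2Ch Pool.Agent.F2 Pool.Agent.F2RF Pool.Agent.F2W Pool.Agent.F2D
open Pool.Agent.F2PF

private theorem ell_inv {K Γ : Type} [Field K] [AddCommGroup Γ] [LinearOrder Γ]
    [IsOrderedAddMonoid Γ] {v : K → Γ} (hv : IsV v) {a : K} (ha : a ≠ 0) : v a⁻¹ = - v a := by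
  have h1 : v 1 = 0 := by
    have h := hv.mul 1 1 one_ne_zero one_ne_zero
    rw [one_mul] at h
    exact left_eq_add.1 h
  have h := hv.mul a a⁻¹ ha (inv_ne_zero ha)
  rw [mul_inv_cancel₀ ha, h1] at h
  exact (neg_eq_of_add_eq_zero_right h.symm).symm

private theorem ell_ge_add {K Γ : Type} [Field K] [AddCommGroup Γ] [LinearOrder Γ]
    [IsOrderedAddMonoid Γ] {v : K → Γ} (hv : IsV v) {a b : K} (ha : Ge v 0 a) (hb : Ge v 0 b) :
    Ge v 0 (a + b) := by
  rcases ha with rfl | ha
  · rw [zero_add]; exact hb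
  rcases hb with rfl | hb
  · rw [add_zero]; exact Or.inr ha
  by_cases ha0 : a = 0
  · rw [ha0, zero_add]; exact Or.inr hb
  by_cases hb0 : b = 0
  · rw [hb0, add_zero]; exact Or.inr ha
  by_cases h0 : a + b = 0
  · exact Or.inl h0
  · exact Or.inr ((le_min ha hb).trans (hv.add a b ha0 hb0 h0))

private theorem ell_scale {K : Type} [Field K] {w : K → ℤ} (hw : IsV w) {c : ℝ} (hc : 0 < c) :
    IsV (fun f => c * (w f : ℝ)) where
  zero := by rw [hw.zero]; simp
  mul x y hx hy := by rw [hw.mul x y hx hy]; push_cast; ring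
  add x y hx hy hxy := by
    have h := hw.add x y hx hy hxy
    rcases min_le_iff.1 h with h | h
    · exact (min_le_left _ _).trans (mul_le_mul_of_nonneg_left (by exact_mod_cast h) hc.le)
    · exact (min_le_right _ _).trans (mul_le_mul_of_nonneg_left (by exact_mod_cast h) hc.le)

private theorem ell_edge {K Λ : Type} [Field K] [Group Λ] {T : Λ → K} {w : K → ℤ} {z g' : Λ}
    {ψ : K} {c : ℝ} (hc : 0 < c) (h : EdgeElt w T z g' ψ) :
    EdgeElt (fun f => c * (w f : ℝ)) T z g' ψ where
  ne := h.ne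
  val := by show c * ((w ψ : ℤ) : ℝ) = 0; rw [h.val]; simp
  hyp := by
    have h1 : ((w (T g') : ℤ) : ℝ) < 0 := by exact_mod_cast h.hyp
    exact mul_neg_of_pos_of_neg hc h1
  lead m := by
    rcases h.lead m with h1 | h1
    · exact Or.inl h1
    · exact Or.inr (mul_lt_mul_of_pos_left (by exact_mod_cast h1) hc)

section

variable (p : ℕ) [Fact p.Prime] (k : Type) [Field k] [CharP k p] [PerfectRing k p] [IsAlgClosed k]
  (Λ : Type) [Group Λ] (cl : Λ →* Multiplicative (ℤ × ℤ)) (K : Type) [Field K] [Algebra k K]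
  (B : Subalgebra k K) (res : B →ₐ[k] Lau k) (T : Λ → K) (κ0 : B) (φ : K → K) (R : K → ℤ)
  (n : ℕ) (g : Fin n → K)

theorem p_ell (hDV : S_DV p k Λ cl K B res T κ0 φ R n g) (htz : S_tz p k Λ cl K B res T κ0 φ R n g)
    (hbas : S_bas p k Λ cl K B res T κ0 φ R n g) (hpsi : S_psi) :
    S_ell p k Λ cl K B res T κ0 φ R n g := by
  intro hcore κ _ _ w x ac φb hR hneg z g' ψ hclz hwz hE hroot c hc V hF hex C δ b hP hel
  obtain ⟨-, -, hBr, -, hB5, -, -⟩ := hbas hcore
  have hwv : IsV w := hR.inz.isv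
  have hVv : IsV V := hF.inz.isv
  have hVle := (hB5 (ℝ ×ₗ ℝ) V hF.inz).2 z
  have hTB : ∀ l, T l ∈ Br k g := fun l => (hBr _).2 (hcore.mem l)
  have hTne : ∀ l, T l ≠ 0 := fun l => ((hB5 (ℝ ×ₗ ℝ) V hF.inz).2 l).1
  have hfst : ∀ f, (ofLex (V f)).1 = c * (w f : ℝ) := hF.fst
  have hVz : V (T z) = 0 := by
    rcases hel with hel | hel
    · rcases (hDV hcore κ w x ac φb hR hneg c hc V hF hex C δ b hP).2 with h1 | h1 | h1
      · exact absurd h1 hel
      · -- pole type
        obtain ⟨μ, hμ⟩ := h1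
        have hfun : (fun f => (ofLex (V f)).1) = fun f => c * (w f : ℝ) := funext hfst
        have hE' : EdgeElt (fun f => (ofLex (V f)).1) T z g' ψ := by
          rw [hfun]; exact ell_edge hc hE
        have hv' : IsV (fun f => (ofLex (V f)).1) := by
          rw [hfun]; exact ell_scale hwv hc
        have hψ : V ψ = 0 := by
          refine EdgeElt.pole hVv hv' hE' ⟨μ, 1, one_pos, fun l => ?_⟩
          have h2 := hμ (T l) (hTB l) (hTne l)
          rw [hfst]
          exact h2
        have hr := EdgeElt.root hE hcore.pc hwv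
        have hge1 : Ge V 0 (ψ + ψ⁻¹) := by
          refine ell_ge_add hVv (Or.inr hψ.ge) (Or.inr ?_)
          rw [ell_inv hVv hE.ne, hψ, neg_zero]
        have hge2 : Ge V 0 (T z - (ψ + ψ⁻¹)) := by
          rcases hr with hr | hr
          · exact Or.inl hr
          · refine Or.inr (le_of_lt ?_)
            rw [Prod.Lex.lt_iff]
            left
            rw [hfst]
            show (0 : ℝ) < c * _
            exact mul_pos hc (by exact_mod_cast hr)
        have hge : Ge V 0 (T z) := by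
          have h3 := ell_ge_add hVv hge1 hge2
          rwa [add_sub_cancel] at h3
        rcases hge with h4 | h4
        · exact absurd h4 (hTne z)
        · exact le_antisymm hVle.2 h4
      · -- `b_0` type
        obtain ⟨μ, hμ⟩ := h1
        have h2 := hμ (T z) (hTB z) (hTne z)
        have h3 : μ * (c * ((w (T z) : ℤ) : ℝ)) + (-1) * c2 V (T z) ≤ 0 := h2
        rw [hwz] at h3
        have h4 : 0 ≤ c2 V (T z) := by
          simp at h3
          linarith
        refine le_antisymm hVle.2 ?_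
        rw [Prod.Lex.le_iff]
        right
        refine ⟨?_, h4⟩
        rw [hfst, hwz]
        simp
    · exact hel (T z) ⟨z, hclz, rfl⟩ hwz
  obtain ⟨ht1, ht2⟩ := htz hcore κ w x ac φb hR z hclz hwz
  have ht3 := (ht2 c hc V C δ b hF.inz hP).2 hVz
  have hψ0 : ac ψ ≠ 0 := hR.isac.ne ψ hE.ne
  have hps := hpsi k κ (ac ψ) hψ0 (by rw [hroot]; exact ht1) C hP.plc.isv hP.plc.triv
    (by rw [hroot]; exact ht3)
  exact ⟨hVz, ht1, ht3, hps.1, hps.2.2⟩

end

end Pool.Agent.F2L
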