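import Pool.Agent.Lib.MP_305fdd_al.F2.L.Stm

/-!
# MP_305fdd_al, F_2 project, [F2L gen]: the generic class
-/

set_option autoImplicit false

namespace Pool.Agent.F2L

open Polynomial Pool.Agent.F2Ch Pool.Agent.F2 Pool.Agent.F2RF Pool.Agent.F2W Pool.Agent.F2D
open Pool.Agent.F2PF

private theorem gen_nonneg {p : ℕ} [Fact p.Prime] {k : Type} [Field k] [CharP k p]
    [PerfectRing k p] {Λ : Type} [Group Λ] {cl : Λ →* Multiplicative (ℤ × ℤ)} {K : Type} [Field K]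
    [Algebra k K] {B : Subalgebra k K} {res : B →ₐ[k] Lau k} {T : Λ → K} {κ0 : B} {φ : K → K}
    {R : K → ℤ} {n : ℕ} {g : Fin n → K} (C : Core p k cl B res T κ0 φ R g) (f : B) :
    0 ≤ R (f : K) := by
  by_cases hf : (f : K) = 0
  · rw [hf, C.Rv.isv.zero]
  obtain ⟨m, a, b, ha, hb, e⟩ := C.ord f hf
  rw [C.Rf f m a b hf ha hb e]
  by_contra hm
  rw [not_le] at hm
  have hκ : (κ0 : K) ≠ 0 := by
    intro h
    exact C.κne (Subtype.ext h)
  obtain ⟨j, hj⟩ := Int.eq_ofNat_of_zero_le (show 0 ≤ -m by omega)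
  have hj0 : j ≠ 0 := by
    intro h
    rw [h] at hj
    simp at hj
    omega
  apply ha
  have h1 : a = f * b * κ0 ^ j := by
    apply Subtype.ext
    push_cast
    rw [e]
    have h2 : (κ0 : K) ^ m * (κ0 : K) ^ j = 1 := by
      have h3 : m = -(j : ℤ) := by
        rw [← hj]
        ring
      rw [h3, zpow_neg, zpow_natCast, inv_mul_cancel₀ (pow_ne_zero _ hκ)]
    calc (a : K) = ((κ0 : K) ^ m * (κ0 : K) ^ j) * a := by rw [h2, one_mul]
      _ = (κ0 : K) ^ m * a * (κ0 : K) ^ j := by ring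
  rw [h1, map_mul, map_pow, C.κres, zero_pow hj0, mul_zero]

/-- [F2L gen] -/
theorem p_gen (p : ℕ) [Fact p.Prime] (k : Type) [Field k] [CharP k p] [PerfectRing k p]
    [IsAlgClosed k] (Λ : Type) [Group Λ] (cl : Λ →* Multiplicative (ℤ × ℤ)) (K : Type) [Field K]
    [Algebra k K] (B : Subalgebra k K) (res : B →ₐ[k] Lau k) (T : Λ → K) (κ0 : B) (φ : K → K)
    (R : K → ℤ) (n : ℕ) (g : Fin n → K) (hL1 : S_L1 p k Λ cl K B res T κ0 φ R n g)
    (hbas : S_bas p k Λ cl K B res T κ0 φ R n g) (hF : S_F) (hO1 : S_O1) :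
    S_gen p k Λ cl K B res T κ0 φ R n g := by
  intro C hno
  obtain ⟨hfg, _, _, _, _, _, hsy, hee⟩ := hbas C
  have hiff : ∀ w : K → ℤ, InZ k p φ w → F2N.Nrm w → ((∃ f : B, w f < 0) ↔ w ≠ R) := by
    intro w hw hn
    constructor
    · rintro ⟨f, hf⟩ rfl
      exact absurd (gen_nonneg C f) (not_le.2 hf)
    · intro hne
      by_contra hcon
      push Not at hcon
      apply hne
      obtain ⟨f1, hf1, hw1⟩ := hn
      obtain ⟨h1, h2⟩ := hO1 p C.odd k K ℤ B res φ C.fra hsy hee κ0 C.κres C.ord w hw.isv hw.triv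
        hw.compat ⟨f1, by rw [hw1]; exact one_ne_zero⟩ (fun f => Or.inr (hcon f))
      have h3 : w κ0 = 1 := by
        obtain ⟨m, a, b, ha, hb, e⟩ := C.ord f1 hf1
        have h4 := h2 f1 m a b hf1 ha hb e
        rw [hw1, smul_eq_mul] at h4
        exact Int.eq_one_of_mul_eq_one_left h1.le h4.symm
      funext f
      by_cases hf : f = 0
      · rw [hf, hw.isv.zero, C.Rv.isv.zero]
      · obtain ⟨m, a, b, ha, hb, e⟩ := C.ord f hf
        rw [h2 f m a b hf ha hb e, C.Rf f m a b hf ha hb e, h3, smul_eq_mul, mul_one]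
  refine ⟨?_, hiff⟩
  obtain ⟨b, ρ, hb⟩ := C.pb
  obtain ⟨m, hm⟩ := F2N.generic hF p k K n g hfg b ρ hb φ C.fra.pinv C.fra.one Λ T cl {R}
    (fun w hw hn hR => hL1 C hno w hw hn ((hiff w hw hn).2 (fun h => hR (Set.mem_singleton_iff.2 h))))
  exact ⟨m, fun w hw hn hne => hm w hw hn (fun h => hne (Set.mem_singleton_iff.1 h))⟩

end Pool.Agent.F2L
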