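import Pool.Agent.Lib.MP_305fdd_al.F2.L.Stm
import Pool.Agent.Lib.MP_305fdd_al.F2.D.Main

/-!
# MP_305fdd_al, F_2 project, section L: the piece [F2L l1]
-/

set_option autoImplicit false

namespace Pool.Agent.F2L

open Polynomial Pool.Agent.F2Ch Pool.Agent.F2 Pool.Agent.F2RF Pool.Agent.F2W Pool.Agent.F2D
open Pool.Agent.F2PF

theorem p_l1 (p : ℕ) [Fact p.Prime] (k : Type) [Field k] [CharP k p] [PerfectRing k p]
    [IsAlgClosed k] (Λ : Type) [Group Λ] (cl : Λ →* Multiplicative (ℤ × ℤ)) (K : Type) [Field K]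
    [Algebra k K] (B : Subalgebra k K) (res : B →ₐ[k] Lau k) (T : Λ → K) (κ0 : B) (φ : K → K)
    (R : K → ℤ) (n : ℕ) (g : Fin n → K) (hbas : S_bas p k Λ cl K B res T κ0 φ R n g) :
    S_l1 p k Λ cl K B res T κ0 φ R n g := by
  intro hc hF w hw hd
  obtain ⟨-, -, -, hrk, hle, -⟩ := hbas hc
  by_contra hcon
  push Not at hcon
  apply hF
  refine m_A0 Λ K ℝ T w cl hc.pc hc.irr hw.isv hd hrk ?_
  intro l hl
  by_contra hcl
  have h1 := ((hle ℝ w hw).2 l).2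
  exact hcon (T l) ⟨l, hcl, rfl⟩ (le_antisymm h1 hl)

end Pool.Agent.F2L
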