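import Pool.Agent.Lib.MP_305fdd_al.F2.L.Stm
import Pool.Agent.Lib.MP_305fdd_al.F2.W.Stm3

/-!
# MP_305fdd_al, [F2L l2]: a second flag
-/

set_option autoImplicit false

namespace Pool.Agent.F2L

open Polynomial Pool.Agent.F2Ch Pool.Agent.F2 Pool.Agent.F2RF Pool.Agent.F2W Pool.Agent.F2D
open Pool.Agent.F2PF

/-- an integral valuation as a real valuation -/
private theorem l2_cast {L : Type} [Field L] {C : L → ℤ} (h : IsV C) :
    IsV (fun y => (C y : ℝ)) := by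
  refine ⟨?_, ?_, ?_⟩
  · rw [h.zero, Int.cast_zero]
  · intro x y hx hy
    rw [h.mul x y hx hy, Int.cast_add]
  · intro x y hx hy hxy
    have h1 := h.add x y hx hy hxy
    rw [min_le_iff] at h1 ⊢
    rcases h1 with h1 | h1
    · exact Or.inl (by exact_mod_cast h1)
    · exact Or.inr (by exact_mod_cast h1)

/-- the value of `Ψ + Ψ⁻¹` -/
private theorem l2_sum {k L : Type} [Field k] [Field L] [Algebra k L] {D : L → ℤ} (hD : IsV D)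
    (Ψ : L) (hΨ : Transcendental k Ψ) (h : ∀ P : k[X], P ≠ 0 → D (aeval Ψ P) = 0) :
    D (Ψ + Ψ⁻¹) = 0 := by
  have hΨ0 : Ψ ≠ 0 := by
    rintro rfl
    exact hΨ isAlgebraic_zero
  have hP : (X ^ 2 + 1 : k[X]) ≠ 0 := by
    have : (X ^ 2 + C 1 : k[X]) ≠ 0 := X_pow_add_C_ne_zero two_pos 1
    simpa using this
  have h1 := h _ hP
  have h2 := h X X_ne_zero
  rw [aeval_X] at h2
  have h3 : aeval Ψ (X ^ 2 + 1 : k[X]) = Ψ ^ 2 + 1 := by simp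
  have h4 : aeval Ψ (X ^ 2 + 1 : k[X]) = (Ψ + Ψ⁻¹) * Ψ := by
    rw [h3, add_mul, inv_mul_cancel₀ hΨ0]
    ring
  have h5 : aeval Ψ (X ^ 2 + 1 : k[X]) ≠ 0 := fun h0 =>
    hΨ ⟨_, hP, h0⟩
  rw [h4] at h1 h5
  have h6 := left_ne_zero_of_mul h5
  rw [hD.mul _ _ h6 hΨ0, h2, add_zero] at h1
  exact h1

section
variable (p : ℕ) [Fact p.Prime] (k : Type) [Field k] [CharP k p] [PerfectRing k p] [IsAlgClosed k]
  (Λ : Type) [Group Λ] (cl : Λ →* Multiplicative (ℤ × ℤ)) (K : Type) [Field K] [Algebra k K]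
  (B : Subalgebra k K) (res : B →ₐ[k] Lau k) (T : Λ → K) (κ0 : B) (φ : K → K) (R : K → ℤ)
  (n : ℕ) (g : Fin n → K)

/-- [F2L l2] -/
theorem p_l2 (hR12 : F2W.S_R12) (hEv : S_Ev) (hFC : S_FC)
    (hbas : S_bas p k Λ cl K B res T κ0 φ R n g)
    (hgen : S_gen p k Λ cl K B res T κ0 φ R n g) (hFD0 : S_FD0 p k Λ cl K B res T κ0 φ R n g)
    (hFD3 : S_FD3 p k Λ cl K B res T κ0 φ R n g) (hed : S_ed p k Λ cl K B res T κ0 φ R n g)
    (hell : S_ell p k Λ cl K B res T κ0 φ R n g) :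
    S_l2 p k Λ cl K B res T κ0 φ R n g := by
  intro hc hF2 m hm w hw hN hn c hcpos V hV hel halt
  obtain ⟨hFr, -, hBr, -⟩ := hbas hc
  obtain ⟨κ, i1, i2, x, ac, φb, hR⟩ := hFD0 hc w hw hN
  have hwR : w ≠ R := ((hgen hc hF2).2 w hw hN).1 hn
  obtain ⟨z0, ⟨l, hl1, hl2, rfl⟩, hl3⟩ := hel
  have hwl : w (T l) = 0 := by
    have h1 := hV.fst (T l)
    rw [hl3] at h1
    have h2 : (0 : ℝ) = c * (w (T l) : ℝ) := h1
    have h3 := (mul_eq_zero.1 h2.symm).resolve_left hcpos.ne'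
    exact_mod_cast h3
  obtain ⟨hReg, hDp⟩ := hm w hw hN hwR ⟨l, hwl.ge, hl1, hl2⟩
  have helE : ∃ z ∈ ES cl T, V z = 0 := ⟨T l, ⟨l, hl1, rfl⟩, hl3⟩
  obtain ⟨C, δ, b, hC⟩ := hFD3 hc κ w x ac φb hR c hcpos V hV helE
  obtain ⟨z, g', ψ, hz1, hz2, hz3, hz4⟩ := hed hc hF2 κ w x ac φb hR hn
  obtain ⟨-, htr, -, htψ, hψ⟩ := hell hc κ w x ac φb hR hn z g' ψ hz1 hz2 hz3 hz4 c hcpos V hV
    helE C δ b hC halt
  have hTz : T z ≠ 0 := by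
    intro h0
    apply htr
    rw [h0, hR.isac.zero]
    exact isAlgebraic_zero
  obtain ⟨q, hq⟩ := (hc.Bg (T z)).1 (hc.mem z)
  obtain ⟨C', hC'1, hC'2, hC'3, f0, hf0, hf0'⟩ := hR12 p k K κ n g hFr hc.trd φ hc.fra.pinv
    hc.fra.one hc.log w hw hN hReg 1 x ac hR.isac φb hR.pinv hR.one hR.res q (ac ψ)
    (by rw [hq]; exact hTz) (by rw [hq]; exact hz2) (by rw [hq]; exact hz4) htψ C hC.plc hC.cpt hψ
  -- the new flag
  have hQc : Compat p φb (fun y => (C' y : ℝ)) := by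
    intro f hf
    have h1 := hC'2 f hf
    simp only [nsmul_eq_mul] at h1 ⊢
    exact_mod_cast h1
  have hinz := hFC p k K κ φ w x ac φb hc.fra.pinv hR (fun y => (C' y : ℝ)) (l2_cast hC'1.isv)
    (fun a => by
      show ((C' (algebraMap k κ a) : ℤ) : ℝ) = 0
      rw [hC'1.triv a, Int.cast_zero]) hQc c hcpos
  have hFl : Flag k p φ (fun f => c * (w f : ℝ))
      (fun f => (toLex (c * (w f : ℝ), (C' (ac f) : ℝ)) : ℝ ×ₗ ℝ)) := by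
    refine ⟨hinz, fun f => rfl, ?_⟩
    obtain ⟨π, hπ0, hπ⟩ := hC'1.unif
    obtain ⟨f, hf0, hfw, hfa⟩ := hR.isac.surj π hπ0
    refine ⟨f, hf0, ?_, ?_⟩
    · show c * (w f : ℝ) = 0
      rw [hfw, Int.cast_zero, mul_zero]
    · show (C' (ac f) : ℝ) ≠ 0
      rw [hfa, hπ, Int.cast_one]
      exact one_ne_zero
  have hFPl : FPl k p w ac φb c (fun f => (toLex (c * (w f : ℝ), (C' (ac f) : ℝ)) : ℝ ×ₗ ℝ)) C'
      1 0 := by
    refine ⟨hC'1, hC'2, one_pos, fun f _ => ?_⟩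
    rw [one_mul, zero_mul, add_zero]
  refine ⟨_, hFl, ⟨T z, ⟨z, hz1, hDp z hz2.ge, rfl⟩, ?_⟩, ?_⟩
  · show (toLex (c * (w (T z) : ℝ), (C' (ac (T z)) : ℝ)) : ℝ ×ₗ ℝ) = 0
    rw [← hz4, l2_sum hC'1.isv (ac ψ) htψ hC'3, hz2, Int.cast_zero, mul_zero]
    rfl
  · obtain ⟨e1, -⟩ := hEv p k K κ w x ac φb hR.inz.isv hR.isac c c hcpos hcpos V _ C C' δ 1 b 0
      hV.inz.isv.zero hinz.isv.zero hC hFPl
    rw [e1]
    rintro rfl
    exact hf0' hf0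

end

end Pool.Agent.F2L
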