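import Pool.Agent.Lib.MP_305fdd_al.F2.L.Stm

/-!
# MP_305fdd_al, [F2L l3]: two pole type flags are equivalent
-/

set_option autoImplicit false

namespace Pool.Agent.F2L

open Polynomial Pool.Agent.F2Ch Pool.Agent.F2 Pool.Agent.F2RF Pool.Agent.F2W Pool.Agent.F2D
open Pool.Agent.F2PF

/-- an integral valuation as a real valuation -/
private theorem l3_cast {L : Type} [Field L] {C : L → ℤ} (h : IsV C) :
    IsV (fun y => (C y : ℝ)) := by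
  refine ⟨?_, ?_, ?_⟩
  · rw [h.zero, Int.cast_zero]
  · intro x y hx hy
    rw [h.mul x y hx hy, Int.cast_add]
  · intro x y hx hy hxy
    have h1 := h.add x y hx hy hxy
    rw [min_le_iff] at h1 ⊢
    rcases h1 with h1 | h1
    · exact Or.inl (by exact_mod_cast h1)
    · exact Or.inr (by exact_mod_cast h1)

section
variable (p : ℕ) [Fact p.Prime] (k : Type) [Field k] [CharP k p] [PerfectRing k p] [IsAlgClosed k]
  (Λ : Type) [Group Λ] (cl : Λ →* Multiplicative (ℤ × ℤ)) (K : Type) [Field K] [Algebra k K]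
  (B : Subalgebra k K) (res : B →ₐ[k] Lau k) (T : Λ → K) (κ0 : B) (φ : K → K) (R : K → ℤ)
  (n : ℕ) (g : Fin n → K)

/-- [F2L l3] -/
theorem p_l3 (hA2 : F2W.S_A2) (hEv : S_Ev) (hFD0 : S_FD0 p k Λ cl K B res T κ0 φ R n g)
    (hFD3 : S_FD3 p k Λ cl K B res T κ0 φ R n g) (hed : S_ed p k Λ cl K B res T κ0 φ R n g)
    (hell : S_ell p k Λ cl K B res T κ0 φ R n g) (hneg : S_neg p k Λ cl K B res T κ0 φ R n g) :
    S_l3 p k Λ cl K B res T κ0 φ R n g := by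
  intro hc hF2 w hw hN hn c hcpos hSG V V' hV hel hPT hV' hel' hPT'
  obtain ⟨κ, i1, i2, x, ac, φb, hR⟩ := hFD0 hc w hw hN
  obtain ⟨C, δ, b, hC⟩ := hFD3 hc κ w x ac φb hR c hcpos V hV hel
  obtain ⟨C', δ', b', hC'⟩ := hFD3 hc κ w x ac φb hR c hcpos V' hV' hel'
  obtain ⟨z, g', ψ, hz1, hz2, hz3, hz4⟩ := hed hc hF2 κ w x ac φb hR hn
  obtain ⟨-, htr, htriv, -, -⟩ := hell hc κ w x ac φb hR hn z g' ψ hz1 hz2 hz3 hz4 c hcpos V hV hel
    C δ b hC (Or.inl hSG)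
  obtain ⟨-, -, htriv', -, -⟩ := hell hc κ w x ac φb hR hn z g' ψ hz1 hz2 hz3 hz4 c hcpos V' hV' hel'
    C' δ' b' hC' (Or.inl hSG)
  obtain ⟨-, A, hA, hAf, hQ⟩ := hneg hc κ w x ac φb hR hn c hcpos hSG
  obtain ⟨Q, q1, ⟨h1, hh1, hh10⟩, q3, q4, -, -⟩ := hQ V hV hel hPT C δ b hC
  obtain ⟨Q', r1, ⟨h2, hh2, hh20⟩, r3, r4, -, -⟩ := hQ V' hV' hel' hPT' C' δ' b' hC'
  have hTz : T z ≠ 0 := by
    intro h0
    apply htr
    rw [h0, hR.isac.zero]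
    exact isAlgebraic_zero
  have hs : ac (T z) ∈ A := by
    rw [hA]
    refine ⟨⟨T z, hc.mem z⟩, Or.inr hz2.ge, ?_⟩
    unfold lc
    rw [if_pos ⟨hTz, hz2⟩]
  obtain ⟨n', t', ht'⟩ := hR.fg
  have hiff := hA2 k κ n' t' ht' hR.trd A hAf (Q ∩ Q') (fun h hh => q1 h hh.1)
    ⟨h1 * h2, ⟨by rw [mul_comm]; exact q3 h2 (r1 h2 hh2) h1 hh1, r3 h1 (q1 h1 hh1) h2 hh2⟩,
      mul_ne_zero hh10 hh20⟩
    (fun a ha h hh => ⟨q3 a ha h hh.1, r3 a ha h hh.2⟩) (ac (T z)) hs htr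
    (fun y => (C y : ℝ)) (fun y => (C' y : ℝ)) (l3_cast hC.plc.isv) (l3_cast hC'.plc.isv)
    (fun P hP => by rw [htriv P hP, Int.cast_zero]) (fun P hP => by rw [htriv' P hP, Int.cast_zero])
    (fun h hh h0 => by exact_mod_cast q4 h hh.1 h0) (fun h hh h0 => by exact_mod_cast r4 h hh.2 h0)
  obtain ⟨e1, e2⟩ := hEv p k K κ w x ac φb hR.inz.isv hR.isac c c hcpos hcpos V V' C C' δ δ' b b'
    hV.inz.isv.zero hV'.inz.isv.zero hC hC'
  rw [e1]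
  apply e2
  intro y
  have h3 := hiff y
  exact ⟨fun h => by exact_mod_cast h3.1 (by exact_mod_cast h),
    fun h => by exact_mod_cast h3.2 (by exact_mod_cast h)⟩

end

end Pool.Agent.F2L
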