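import Pool.Agent.Lib.MP_305fdd_al.F2.L.Stm
import Pool.Agent.Lib.MP_305fdd_al.F2.RF.Stm

/-!
# MP_305fdd_al, [F2L l6]: the inequality
-/

set_option autoImplicit false

namespace Pool.Agent.F2L

open Polynomial Pool.Agent.F2Ch Pool.Agent.F2 Pool.Agent.F2RF Pool.Agent.F2W Pool.Agent.F2D
open Pool.Agent.F2PF

/-- an integral valuation as a real valuation -/
private theorem l6_cast {L : Type} [Field L] {C : L → ℤ} (h : IsV C) :
    IsV (fun y => (C y : ℝ)) := by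
  refine ⟨?_, ?_, ?_⟩
  · rw [h.zero, Int.cast_zero]
  · intro x y hx hy
    rw [h.mul x y hx hy, Int.cast_add]
  · intro x y hx hy hxy
    have h1 := h.add x y hx hy hxy
    rw [min_le_iff] at h1 ⊢
    rcases h1 with h1 | h1
    · exact Or.inl (by exact_mod_cast h1)
    · exact Or.inr (by exact_mod_cast h1)

section
variable (p : ℕ) [Fact p.Prime] (k : Type) [Field k] [CharP k p] [PerfectRing k p] [IsAlgClosed k]
  (Λ : Type) [Group Λ] (cl : Λ →* Multiplicative (ℤ × ℤ)) (K : Type) [Field K] [Algebra k K]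
  (B : Subalgebra k K) (res : B →ₐ[k] Lau k) (T : Λ → K) (κ0 : B) (φ : K → K) (R : K → ℤ)
  (n : ℕ) (g : Fin n → K)

/-- [F2L l6] -/
theorem p_l6 (hU12 : F2RF.S_U12) (hbas : S_bas p k Λ cl K B res T κ0 φ R n g)
    (hFD0 : S_FD0 p k Λ cl K B res T κ0 φ R n g)
    (hFD3 : S_FD3 p k Λ cl K B res T κ0 φ R n g) (hed : S_ed p k Λ cl K B res T κ0 φ R n g)
    (hell : S_ell p k Λ cl K B res T κ0 φ R n g) (hneg : S_neg p k Λ cl K B res T κ0 φ R n g) :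
    S_l6 p k Λ cl K B res T κ0 φ R n g := by
  intro hc hF2 w hw hN hn c hcpos hSG V V' hV hel hPT hV' hel'
  obtain ⟨-, -, hBr, -⟩ := hbas hc
  obtain ⟨κ, i1, i2, x, ac, φb, hR⟩ := hFD0 hc w hw hN
  obtain ⟨C, δ, b, hC⟩ := hFD3 hc κ w x ac φb hR c hcpos V hV hel
  obtain ⟨C', δ', b', hC'⟩ := hFD3 hc κ w x ac φb hR c hcpos V' hV' hel'
  obtain ⟨z, g', ψ, hz1, hz2, hz3, hz4⟩ := hed hc hF2 κ w x ac φb hR hn
  obtain ⟨-, htr, htriv, -, -⟩ := hell hc κ w x ac φb hR hn z g' ψ hz1 hz2 hz3 hz4 c hcpos V hV hel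
    C δ b hC (Or.inl hSG)
  obtain ⟨-, -, htriv', -, -⟩ := hell hc κ w x ac φb hR hn z g' ψ hz1 hz2 hz3 hz4 c hcpos V' hV' hel'
    C' δ' b' hC' (Or.inl hSG)
  obtain ⟨-, A, hA, hAf, hQ⟩ := hneg hc κ w x ac φb hR hn c hcpos hSG
  obtain ⟨Q, q1, -, q3, q4, q5, a0, ha0, ha00, ha01⟩ := hQ V hV hel hPT C δ b hC
  have hTz : T z ≠ 0 := by
    intro h0
    apply htr
    rw [h0, hR.isac.zero]
    exact isAlgebraic_zero
  have hmem : ∀ f ∈ B, f ≠ 0 → w f = 0 → ac f ∈ A := by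
    intro f hf hf0 hfw
    rw [hA]
    refine ⟨⟨f, hf⟩, Or.inr hfw.ge, ?_⟩
    unfold lc
    rw [if_pos ⟨hf0, hfw⟩]
  have hs : ac (T z) ∈ A := hmem _ (hc.mem z) hTz hz2
  obtain ⟨n', t', ht'⟩ := hR.fg
  obtain ⟨-, ρ, hρ, hin⟩ := hU12 k κ n' t' ht' hR.trd A hAf (ac (T z)) hs htr
    (fun y => (C y : ℝ)) (fun y => (C' y : ℝ)) (l6_cast hC.plc.isv) (l6_cast hC'.plc.isv)
    (fun P hP => by rw [htriv P hP, Int.cast_zero]) (fun P hP => by rw [htriv' P hP, Int.cast_zero])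
    (fun a ha h0 => by exact_mod_cast q5 a ha h0) ⟨a0, ha0, ha00, by exact_mod_cast ha01⟩
  refine ⟨ρ * δ / δ', div_pos (mul_pos hρ hC.pos) hC'.pos, ?_⟩
  intro h hh hh0 hhw
  have h1 := hin (ac h) (hmem h ((hBr h).1 hh) hh0 hhw) (hR.isac.ne h hh0)
  have e1 : c2 V h = δ * (C (ac h) : ℝ) := by
    unfold c2
    rw [hC.eq h hh0, hhw]
    simp
  have e2 : c2 V' h = δ' * (C' (ac h) : ℝ) := by
    unfold c2
    rw [hC'.eq h hh0, hhw]
    simp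
  rw [e1, e2]
  have hδ' := hC'.pos.ne'
  have e3 : δ * (C (ac h) : ℝ) + ρ * δ / δ' * (δ' * (C' (ac h) : ℝ)) =
      δ * ((C (ac h) : ℝ) + ρ * (C' (ac h) : ℝ)) := by
    field_simp
  rw [e3]
  exact mul_nonpos_of_nonneg_of_nonpos hC.pos.le h1

end

end Pool.Agent.F2L
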