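import Pool.Agent.Lib.MP_305fdd_al.F2.L.Stm
import Pool.Agent.Lib.MP_305fdd_al.F2.PF.P_gor
import Pool.Agent.Lib.MP_305fdd_al.F2.PF.P_ext

/-!
# MP_305fdd_al, F_2 project, section L: piece `ld` (the field `ld` of `LocF`)
-/

set_option autoImplicit false

namespace Pool.Agent.F2L

open Polynomial Pool.Agent.F2Ch Pool.Agent.F2 Pool.Agent.F2RF Pool.Agent.F2W Pool.Agent.F2D
open Pool.Agent.F2PF

private theorem ld_wt_add {Γ : Type} [AddCommGroup Γ] {r : ℕ} (u : Fin r → Γ) (m m' : Fin r → ℤ) :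
    wt u (m + m') = wt u m + wt u m' := by
  simp [wt, add_smul, Finset.sum_add_distrib]

private theorem ld_wt_sub {Γ : Type} [AddCommGroup Γ] {r : ℕ} (u : Fin r → Γ) (m m' : Fin r → ℤ) :
    wt u (m - m') = wt u m - wt u m' := by
  simp [wt, sub_smul, Finset.sum_sub_distrib]

/-- [F2L ld] -/
theorem p_ld (p : ℕ) [Fact p.Prime] (k : Type) [Field k] [CharP k p] [PerfectRing k p]
    [IsAlgClosed k] (Λ : Type) [Group Λ] (cl : Λ →* Multiplicative (ℤ × ℤ)) (K : Type) [Field K]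
    [Algebra k K] (B : Subalgebra k K) (res : B →ₐ[k] Lau k) (T : Λ → K) (κ0 : B) (φ : K → K)
    (R : K → ℤ) (n : ℕ) (g : Fin n → K)
    (hQ0 : S_Q0 p k Λ cl K B res T κ0 φ R n g) : S_ld p k Λ cl K B res T κ0 φ R n g := by
  intro hC Γ _ _ _ V x ex hV hvb hz
  have hex : ∀ f f' : K, f ≠ 0 → f' ≠ 0 → ex (f * f') = ex f + ex f' := by
    intro f f' hf hf'
    have h1 := hvb.indep (ex (f * f') - (ex f + ex f')) (by
      rw [ld_wt_sub, ld_wt_add, ← hvb.gen _ (mul_ne_zero hf hf'), ← hvb.gen _ hf,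
        ← hvb.gen _ hf', hV.isv.mul _ _ hf hf', sub_self])
    exact sub_eq_zero.1 h1
  have hQ := hQ0 hC Γ V hV hz ⟨x 0, x 1, hvb.ne 0, hvb.ne 1, fun m m' hmm => by
    have h1 := hvb.indep ![m, m'] (by simpa [wt, Fin.sum_univ_two] using hmm)
    exact ⟨by simpa using congrFun h1 0, by simpa using congrFun h1 1⟩⟩
  obtain ⟨u, hu0, hu⟩ := p_gor {s : ℤ × ℤ | ∃ f : B, res f = 0 ∧ (f : K) ≠ 0 ∧
      s = (ex f 0, ex f 1)} (by
    rintro _ ⟨f, hf, hf0, rfl⟩ _ ⟨f', hf', hf0', rfl⟩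
    refine ⟨f * f', by rw [map_mul, hf, zero_mul], mul_ne_zero hf0 hf0', ?_⟩
    rw [MulMemClass.coe_mul, hex _ _ hf0 hf0']
    rfl) (by
    rintro ⟨f, hf, hf0, he⟩
    have he0 : ex (f : K) = 0 := by
      have e0 := (Prod.ext_iff.1 he).1
      have e1 := (Prod.ext_iff.1 he).2
      funext i
      fin_cases i
      · exact e0.symm
      · exact e1.symm
    have hV0 : V (f : K) = 0 := by
      rw [hvb.gen _ hf0, he0]
      simp [wt]
    rcases hQ f hf (Or.inr hV0.ge) with h | h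
    · exact hf0 h
    · rw [hV0] at h
      exact lt_irrefl _ h)
  refine ⟨u, hu0, ?_⟩
  have hE := (p_ext K (Br k g) {h | ∃ f : B, res f = 0 ∧ (f : K) = h} ?_ ?_ ?_).1
    (fun f => (ex f 0 : ℝ)) (fun f => (ex f 1 : ℝ)) ?_ ?_ u ?_
  · intro f hf hf0
    exact hE f hf hf0
  · rintro a ⟨q, rfl⟩ b ⟨q', rfl⟩
    exact ⟨q * q', map_mul _ _ _⟩
  · rintro a ha _ ⟨f, hf, rfl⟩
    have haB : a ∈ B := (hC.Bg a).2 ha
    exact ⟨⟨a, haB⟩ * f, by rw [map_mul, hf, mul_zero], rfl⟩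
  · refine ⟨κ0, ⟨κ0, hC.κres, rfl⟩, ?_⟩
    intro h
    exact hC.κne (Subtype.ext h)
  · intro f f' hf hf'
    simp only [hex f f' hf hf', Pi.add_apply, Int.cast_add]
  · intro f f' hf hf'
    simp only [hex f f' hf hf', Pi.add_apply, Int.cast_add]
  · rintro _ ⟨f, hf, rfl⟩ hf0
    exact hu _ ⟨f, hf, hf0, rfl⟩

end Pool.Agent.F2L
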