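import Pool.Agent.Lib.MP_305fdd_al.F2.L.Stm

/-!
# MP_305fdd_al, F_2 project, section L: valuations trivial on `k[Ψ + Ψ⁻¹]`
-/

set_option autoImplicit false

namespace Pool.Agent.F2L

open Polynomial Pool.Agent.F2Ch

private theorem psi_lin (k κ : Type) [Field k] [Field κ] [Algebra k κ] (Ψ : κ) (hΨ : Ψ ≠ 0)
    (ht : Transcendental k (Ψ + Ψ⁻¹)) (v : κ → ℤ) (hv : IsV v) (hk : Triv k v)
    (hP : ∀ P : k[X], P ≠ 0 → v (aeval (Ψ + Ψ⁻¹) P) = 0) :
    v Ψ = 0 ∧ ∀ d : k, Ψ - algebraMap k κ d ≠ 0 ∧ v (Ψ - algebraMap k κ d) = 0 := by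
  have hab : ∀ d : k, (Ψ - algebraMap k κ d) * (Ψ⁻¹ - algebraMap k κ d) ≠ 0 ∧
      v ((Ψ - algebraMap k κ d) * (Ψ⁻¹ - algebraMap k κ d)) = 0 := by
    intro d
    let Q : k[X] := C (1 + d ^ 2) - C d * X
    have hQ : Q ≠ 0 := by
      intro h0
      by_cases hd : d = 0
      · have : Q.coeff 0 = 0 := by rw [h0, coeff_zero]
        simp [Q, hd] at this
      · have : Q.coeff 1 = 0 := by rw [h0, coeff_zero]
        have h2 : (C (1 + d ^ 2) : k[X]).coeff 1 = 0 := coeff_C_succ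
        have h3 : Q.coeff 1 = -d := by
          show (C (1 + d ^ 2) - C d * X : k[X]).coeff 1 = -d
          rw [coeff_sub, h2, coeff_C_mul, coeff_X_one, mul_one, zero_sub]
        rw [h3, neg_eq_zero] at this
        exact hd this
    have he : aeval (Ψ + Ψ⁻¹) Q = (Ψ - algebraMap k κ d) * (Ψ⁻¹ - algebraMap k κ d) := by
      simp only [Q, map_sub, map_mul, aeval_C, aeval_X, map_add, map_one, map_pow]
      field_simp
      ring
    rw [← he]
    refine ⟨fun h => hQ ?_, hP Q hQ⟩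
    exact (transcendental_iff.1 ht) Q h
  have hne : ∀ d : k, Ψ - algebraMap k κ d ≠ 0 := fun d => left_ne_zero_of_mul (hab d).1
  have hne' : ∀ d : k, Ψ⁻¹ - algebraMap k κ d ≠ 0 := fun d => right_ne_zero_of_mul (hab d).1
  have hsum : ∀ d : k, v (Ψ - algebraMap k κ d) + v (Ψ⁻¹ - algebraMap k κ d) = 0 := by
    intro d
    rw [← hv.mul _ _ (hne d) (hne' d)]
    exact (hab d).2
  have hi : Ψ⁻¹ ≠ 0 := inv_ne_zero hΨ
  have hneg : ∀ x : κ, x ≠ 0 → v (-x) = v x := by
    intro x hx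
    have h1 : v (-1 : κ) = 0 := by
      have := hk (-1)
      rwa [map_neg, map_one] at this
    have h2 : (-1 : κ) ≠ 0 := neg_ne_zero.2 one_ne_zero
    have := hv.mul (-1) x h2 hx
    rw [neg_one_mul, h1, zero_add] at this
    exact this
  have hs0 : v Ψ + v Ψ⁻¹ = 0 := by
    have := hsum 0
    simpa using this
  have hvs : v (Ψ + Ψ⁻¹) = 0 := by
    have := hP X X_ne_zero
    simpa using this
  have hsne : Ψ + Ψ⁻¹ ≠ 0 := by
    intro h
    have := (transcendental_iff.1 ht) X (by simpa using h)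
    exact X_ne_zero this
  have h0 : ∀ a b : κ, a ≠ 0 → b ≠ 0 → v a + v b = 0 → v (a + b) = 0 → a + b ≠ 0 → 0 ≤ v a := by
    intro a b ha hb h1 h2 h3
    have h4 := hv.add (a + b) (-b) h3 (neg_ne_zero.2 hb) (by simpa using ha)
    rw [add_neg_cancel_right, hneg b hb, h2] at h4
    rcases le_total 0 (v b) with h5 | h5
    · rw [min_eq_left h5] at h4
      exact h4
    · omega
  have h1 : 0 ≤ v Ψ := h0 _ _ hΨ hi hs0 hvs hsne
  have h2 : 0 ≤ v Ψ⁻¹ := h0 _ _ hi hΨ (by omega) (by rw [add_comm]; exact hvs)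
    (by rw [add_comm]; exact hsne)
  have h3 : v Ψ = 0 := by omega
  have h4 : v Ψ⁻¹ = 0 := by omega
  have hge : ∀ (a : κ) (d : k), a ≠ 0 → v a = 0 → a - algebraMap k κ d ≠ 0 →
      0 ≤ v (a - algebraMap k κ d) := by
    intro a d ha hva hne
    by_cases hd : d = 0
    · rw [hd, map_zero, sub_zero, hva]
    · have hd' : -algebraMap k κ d ≠ 0 := neg_ne_zero.2 ((_root_.map_ne_zero _).2 hd)
      have h5 : v (-algebraMap k κ d) = 0 := by
        have := hk (-d)
        rwa [map_neg] at this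
      have h6 := hv.add a (-algebraMap k κ d) ha hd' (by rw [← sub_eq_add_neg]; exact hne)
      rw [hva, h5, min_self, ← sub_eq_add_neg] at h6
      exact h6
  refine ⟨h3, fun d => ⟨hne d, ?_⟩⟩
  have h5 := hge Ψ d hΨ h3 (hne d)
  have h6 := hge Ψ⁻¹ d hi h4 (hne' d)
  have h7 := hsum d
  omega

theorem p_psi : S_psi := by
  intro k κ _ _ _ _ Ψ hΨ ht v hv hk hP
  obtain ⟨h1, h2⟩ := psi_lin k κ Ψ hΨ ht v hv hk hP
  have key : ∀ (m : ℕ) (P : k[X]), P.natDegree = m → P ≠ 0 →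
      aeval Ψ P ≠ 0 ∧ v (aeval Ψ P) = 0 := by
    intro m
    induction m with
    | zero =>
      intro P hm hP0
      rw [eq_C_of_natDegree_eq_zero hm] at hP0 ⊢
      have hc : P.coeff 0 ≠ 0 := fun h => hP0 (by rw [h, C_0])
      rw [aeval_C]
      exact ⟨(_root_.map_ne_zero _).2 hc, hk _⟩
    | succ m ih =>
      intro P hm hP0
      have hdeg : P.degree ≠ 0 := by
        rw [degree_eq_natDegree hP0, hm]
        exact_mod_cast Nat.succ_ne_zero m
      obtain ⟨r, hr⟩ := IsAlgClosed.exists_root P hdeg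
      obtain ⟨Q, hQ⟩ := dvd_iff_isRoot.2 hr
      have hQ0 : Q ≠ 0 := by
        intro h
        rw [h, mul_zero] at hQ
        exact hP0 hQ
      have hQd : Q.natDegree = m := by
        have h3 : P.natDegree = (X - C r).natDegree + Q.natDegree := by
          rw [hQ, natDegree_mul (X_sub_C_ne_zero r) hQ0]
        rw [natDegree_X_sub_C, hm] at h3
        omega
      obtain ⟨h4, h5⟩ := ih Q hQd hQ0
      obtain ⟨h6, h7⟩ := h2 r
      have h8 : aeval Ψ P = (Ψ - algebraMap k κ r) * aeval Ψ Q := by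
        rw [hQ, map_mul, map_sub, aeval_X, aeval_C]
      rw [h8]
      refine ⟨mul_ne_zero h6 h4, ?_⟩
      rw [hv.mul _ _ h6 h4, h7, h5, add_zero]
  refine ⟨?_, h1, fun P hP0 => (key _ P rfl hP0).2⟩
  rw [transcendental_iff]
  intro P hP1
  by_contra hne
  exact (key _ P rfl hne).1 hP1

end Pool.Agent.F2L
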