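import Pool.Agent.Lib.MP_305fdd_al.F2.L.Stm

/-!
# MP_305fdd_al, F_2 project, section L: piece [F2L tz]
-/

set_option autoImplicit false

namespace Pool.Agent.F2L

open Polynomial Pool.Agent.F2Ch Pool.Agent.F2 Pool.Agent.F2RF Pool.Agent.F2W Pool.Agent.F2D
open Pool.Agent.F2PF

section
variable {k K κ : Type} [Field k] [Field K] [Algebra k K] [Field κ] [Algebra k κ] {w : K → ℤ}
  {x : Fin 1 → K} {ac : K → κ}

private theorem tz_lc_eq {f : K} (hf : f ≠ 0) (hw : w f = 0) : lc w ac 0 f = ac f := by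
  unfold lc
  rw [if_pos ⟨hf, hw⟩]

private theorem tz_lc_zero {f : K} (h : f = 0 ∨ w f ≠ 0) : lc w ac 0 f = 0 := by
  unfold lc
  rw [if_neg]
  rintro ⟨h1, h2⟩
  rcases h with h | h
  · exact h1 h
  · exact h h2

private theorem tz_ge_add (hv : IsV w) {f g : K} (hf : Ge w 0 f) (hg : Ge w 0 g) :
    Ge w 0 (f + g) := by
  by_cases h0 : f = 0
  · rw [h0, zero_add]; exact hg
  by_cases h1 : g = 0
  · rw [h1, add_zero]; exact hf
  by_cases h2 : f + g = 0
  · exact Or.inl h2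
  exact Or.inr ((le_min (hf.resolve_left h0) (hg.resolve_left h1)).trans (hv.add f g h0 h1 h2))

private theorem tz_ge_mul (hv : IsV w) {f g : K} (hf : Ge w 0 f) (hg : Ge w 0 g) :
    Ge w 0 (f * g) := by
  by_cases h0 : f = 0
  · left; rw [h0, zero_mul]
  by_cases h1 : g = 0
  · left; rw [h1, mul_zero]
  right
  rw [hv.mul f g h0 h1]
  exact add_nonneg (hf.resolve_left h0) (hg.resolve_left h1)

private theorem tz_lc_mul (hv : IsV w) (hac : IsAC k w x ac) {f g : K} (hf : Ge w 0 f)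
    (hg : Ge w 0 g) : lc w ac 0 (f * g) = lc w ac 0 f * lc w ac 0 g := by
  by_cases h0 : f = 0
  · rw [tz_lc_zero (Or.inl h0), tz_lc_zero (Or.inl (by rw [h0, zero_mul])), zero_mul]
  by_cases h1 : g = 0
  · rw [tz_lc_zero (Or.inl h1), tz_lc_zero (Or.inl (by rw [h1, mul_zero])), mul_zero]
  have hf' := hf.resolve_left h0
  have hg' := hg.resolve_left h1
  have hm := hv.mul f g h0 h1
  by_cases h2 : w f = 0
  · by_cases h3 : w g = 0
    · rw [tz_lc_eq h0 h2, tz_lc_eq h1 h3, tz_lc_eq (mul_ne_zero h0 h1) (by rw [hm, h2, h3]; rfl),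
        hac.mul]
    · rw [tz_lc_zero (f := g) (Or.inr h3), tz_lc_zero (Or.inr (by rw [hm, h2, zero_add]; exact h3)),
        mul_zero]
  · rw [tz_lc_zero (f := f) (Or.inr h2), tz_lc_zero (Or.inr (by rw [hm]; omega)), zero_mul]

private theorem tz_aeval (hv : IsV w) (ht : Triv k w) (hac : IsAC k w x ac) {f : K}
    (hf : Ge w 0 f) (P : k[X]) :
    Ge w 0 (aeval f P) ∧ lc w ac 0 (aeval f P) = aeval (lc w ac 0 f) P := by
  induction P using Polynomial.induction_on with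
  | C a =>
    rw [aeval_C, aeval_C]
    refine ⟨Or.inr (ht a).ge, ?_⟩
    by_cases h0 : a = 0
    · rw [h0, map_zero, map_zero]
      exact tz_lc_zero (Or.inl rfl)
    · rw [tz_lc_eq ((_root_.map_ne_zero _).2 h0) (ht a), hac.alg]
  | add p q hp hq =>
    rw [map_add, map_add]
    exact ⟨tz_ge_add hv hp.1 hq.1, by rw [hac.add 0 _ _ hp.1 hq.1, hp.2, hq.2]⟩
  | monomial n a ih =>
    rw [pow_succ, ← mul_assoc, map_mul (aeval f) (C a * X ^ n), map_mul (aeval (lc w ac 0 f)) (C a * X ^ n),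
      aeval_X, aeval_X]
    exact ⟨tz_ge_mul hv ih.1 hf, by rw [tz_lc_mul hv hac ih.1 hf, ih.2]⟩

end

theorem p_tz (p : ℕ) [Fact p.Prime] (k : Type) [Field k] [CharP k p] [PerfectRing k p]
    [IsAlgClosed k] (Λ : Type) [Group Λ] (cl : Λ →* Multiplicative (ℤ × ℤ)) (K : Type) [Field K]
    [Algebra k K] (B : Subalgebra k K) (res : B →ₐ[k] Lau k) (T : Λ → K) (κ0 : B) (φ : K → K)
    (R : K → ℤ) (n : ℕ) (g : Fin n → K) (hbas : S_bas p k Λ cl K B res T κ0 φ R n g) :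
    S_tz p k Λ cl K B res T κ0 φ R n g := by
  intro hcore κ _ _ w x ac φb hRF l hl hw
  obtain ⟨-, -, -, -, h5, h6, -, -⟩ := hbas hcore
  have hv := hRF.inz.isv
  have ht := hRF.inz.triv
  have hac := hRF.isac
  have hf0 : T l ≠ 0 := ((h5 ℤ w hRF.inz).2 l).1
  have hlc : lc w ac 0 (T l) = ac (T l) := tz_lc_eq hf0 hw
  have key : ∀ P : k[X], P ≠ 0 → aeval (T l) P ≠ 0 ∧ w (aeval (T l) P) = 0 ∧
      ac (aeval (T l) P) = aeval (ac (T l)) P := by
    intro P hP
    obtain ⟨h7, h8⟩ := h6 ℤ w hRF.inz l hl hw P hP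
    refine ⟨h7, h8, ?_⟩
    have h9 := (tz_aeval hv ht hac (f := T l) (Or.inr hw.ge) P).2
    rw [tz_lc_eq h7 h8, hlc] at h9
    exact h9
  refine ⟨?_, ?_⟩
  · rw [transcendental_iff]
    intro P hP
    by_contra hP0
    obtain ⟨h7, h8, h9⟩ := key P hP0
    rw [hP] at h9
    exact hac.ne _ h7 h9
  · intro c hc V C δ b hV hF
    have hVeq : ∀ f : K, f ≠ 0 → w f = 0 → (V f = 0 ↔ C (ac f) = 0) := by
      intro f hf hwf
      have h10 := hF.eq f hf
      rw [hwf, Int.cast_zero, mul_zero, mul_zero, add_zero] at h10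
      rw [h10]
      constructor
      · intro h
        have h11 : δ * (C (ac f) : ℝ) = 0 := congrArg (fun z : ℝ ×ₗ ℝ => (ofLex z).2) h
        rcases mul_eq_zero.1 h11 with h12 | h12
        · exact absurd h12 hF.pos.ne'
        · exact_mod_cast h12
      · intro h
        rw [h, Int.cast_zero, mul_zero]
        rfl
    refine ⟨hVeq _ hf0 hw, ?_⟩
    intro hVT P hP
    obtain ⟨h7, h8, h9⟩ := key P hP
    rw [← h9]
    exact (hVeq _ h7 h8).1 (h6 _ V hV l hl hVT P hP).2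

end Pool.Agent.F2L
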