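import Pool.Agent.Lib.MP_305fdd_al.F2.L.Glue
import Pool.Agent.Lib.MP_305fdd_al.F2.L.P_DV
import Pool.Agent.Lib.MP_305fdd_al.F2.L.P_Ev
import Pool.Agent.Lib.MP_305fdd_al.F2.L.P_FC
import Pool.Agent.Lib.MP_305fdd_al.F2.L.P_FD0
import Pool.Agent.Lib.MP_305fdd_al.F2.L.P_FD2
import Pool.Agent.Lib.MP_305fdd_al.F2.L.P_FD3
import Pool.Agent.Lib.MP_305fdd_al.F2.L.P_L1
import Pool.Agent.Lib.MP_305fdd_al.F2.L.P_Q0
import Pool.Agent.Lib.MP_305fdd_al.F2.L.P_bas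
import Pool.Agent.Lib.MP_305fdd_al.F2.L.P_ct
import Pool.Agent.Lib.MP_305fdd_al.F2.L.P_ed
import Pool.Agent.Lib.MP_305fdd_al.F2.L.P_ell
import Pool.Agent.Lib.MP_305fdd_al.F2.L.P_gen
import Pool.Agent.Lib.MP_305fdd_al.F2.L.P_l1
import Pool.Agent.Lib.MP_305fdd_al.F2.L.P_l2
import Pool.Agent.Lib.MP_305fdd_al.F2.L.P_l3
import Pool.Agent.Lib.MP_305fdd_al.F2.L.P_l6
import Pool.Agent.Lib.MP_305fdd_al.F2.L.P_ld
import Pool.Agent.Lib.MP_305fdd_al.F2.L.P_neg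
import Pool.Agent.Lib.MP_305fdd_al.F2.L.P_psi
import Pool.Agent.Lib.MP_305fdd_al.F2.L.P_tz
import Pool.Agent.Lib.MP_305fdd_al.F2.W.Main
import Pool.Agent.Lib.MP_305fdd_al.F2.N.RFc
import Pool.Agent.Lib.MP_305fdd_al.F2.PF.StmC

/-!
# MP_305fdd_al, F_2 project, section L: assembly
-/

set_option autoImplicit false

namespace Pool.Agent.F2L

open Pool.Agent.F2Ch Pool.Agent.F2 Pool.Agent.F2RF Pool.Agent.F2W Pool.Agent.F2D Pool.Agent.F2PF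

section

variable (p : ℕ) [Fact p.Prime] (k : Type) [Field k] [CharP k p] [PerfectRing k p] [IsAlgClosed k]
  (Λ : Type) [Group Λ] (cl : Λ →* Multiplicative (ℤ × ℤ)) (K : Type) [Field K] [Algebra k K]
  (B : Subalgebra k K) (res : B →ₐ[k] Lau k) (T : Λ → K) (κ0 : B) (φ : K → K) (R : K → ℤ)
  (n : ℕ) (g : Fin n → K)

theorem t_FD3 : S_FD3 p k Λ cl K B res T κ0 φ R n g :=
  p_FD3 p k Λ cl K B res T κ0 φ R n g p_FD2 (p_bas p k Λ cl K B res T κ0 φ R n g)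

theorem t_FD0 : S_FD0 p k Λ cl K B res T κ0 φ R n g :=
  p_FD0 p k Λ cl K B res T κ0 φ R n g F2W.t_R11

theorem t_DV : S_DV p k Λ cl K B res T κ0 φ R n g :=
  p_DV p k Λ cl K B res T κ0 φ R n g (p_Q0 p k Λ cl K B res T κ0 φ R n g)

theorem t_L1 : S_L1 p k Λ cl K B res T κ0 φ R n g :=
  p_L1 p k Λ cl K B res T κ0 φ R n g F2W.t_Z6 F2W.t_Z7 F2W.t_A5 F2Ch.t_X2 F2D.m_A1
    (p_bas p k Λ cl K B res T κ0 φ R n g)

theorem t_gen : S_gen p k Λ cl K B res T κ0 φ R n g :=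
  p_gen p k Λ cl K B res T κ0 φ R n g (t_L1 p k Λ cl K B res T κ0 φ R n g)
    (p_bas p k Λ cl K B res T κ0 φ R n g) F2W.t_F F2W.t_O1

theorem t_ed : S_ed p k Λ cl K B res T κ0 φ R n g :=
  p_ed p k Λ cl K B res T κ0 φ R n g (t_L1 p k Λ cl K B res T κ0 φ R n g)
    (p_bas p k Λ cl K B res T κ0 φ R n g) F2D.m_A2 F2D.p_l1

theorem t_ell : S_ell p k Λ cl K B res T κ0 φ R n g :=
  p_ell p k Λ cl K B res T κ0 φ R n g (t_DV p k Λ cl K B res T κ0 φ R n g)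
    (p_tz p k Λ cl K B res T κ0 φ R n g (p_bas p k Λ cl K B res T κ0 φ R n g))
    (p_bas p k Λ cl K B res T κ0 φ R n g) p_psi

theorem t_neg : S_neg p k Λ cl K B res T κ0 φ R n g :=
  p_neg p k Λ cl K B res T κ0 φ R n g F2W.t_A1 F2W.t_A4 F2W.t_A5
    (p_bas p k Λ cl K B res T κ0 φ R n g) (t_DV p k Λ cl K B res T κ0 φ R n g)

theorem t_l2 : S_l2 p k Λ cl K B res T κ0 φ R n g :=
  p_l2 p k Λ cl K B res T κ0 φ R n g F2W.t_R12 p_Ev p_FC (p_bas p k Λ cl K B res T κ0 φ R n g)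
    (t_gen p k Λ cl K B res T κ0 φ R n g) (t_FD0 p k Λ cl K B res T κ0 φ R n g)
    (t_FD3 p k Λ cl K B res T κ0 φ R n g) (t_ed p k Λ cl K B res T κ0 φ R n g)
    (t_ell p k Λ cl K B res T κ0 φ R n g)

theorem t_l3 : S_l3 p k Λ cl K B res T κ0 φ R n g :=
  p_l3 p k Λ cl K B res T κ0 φ R n g F2W.t_A2 p_Ev (t_FD0 p k Λ cl K B res T κ0 φ R n g)
    (t_FD3 p k Λ cl K B res T κ0 φ R n g) (t_ed p k Λ cl K B res T κ0 φ R n g)
    (t_ell p k Λ cl K B res T κ0 φ R n g) (t_neg p k Λ cl K B res T κ0 φ R n g)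

theorem t_l6 : S_l6 p k Λ cl K B res T κ0 φ R n g :=
  p_l6 p k Λ cl K B res T κ0 φ R n g F2RF.u12 (p_bas p k Λ cl K B res T κ0 φ R n g)
    (t_FD0 p k Λ cl K B res T κ0 φ R n g) (t_FD3 p k Λ cl K B res T κ0 φ R n g)
    (t_ed p k Λ cl K B res T κ0 φ R n g) (t_ell p k Λ cl K B res T κ0 φ R n g)
    (t_neg p k Λ cl K B res T κ0 φ R n g)

/-- THE LOCAL FACTS for an exotic group, from the field `l8` (Lemma S) -/
theorem t_locF (C : Core p k cl B res T κ0 φ R g) (hex : ¬ OntoF2 Λ)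
    (hR : ∀ m : ℤ, RFields k p φ g (AS cl T m) (fun f => (R f : ℝ)))
    (h8 : L8 k p φ g (ES cl T)) :
    ∃ m : ℤ, LocF k p φ g (ES cl T) (AS cl T m) (fun f => (R f : ℝ)) :=
  locF p k Λ cl K B res T κ0 φ R n g (p_ct p k Λ cl K B res T κ0 φ R n g)
    (p_ld p k Λ cl K B res T κ0 φ R n g (p_Q0 p k Λ cl K B res T κ0 φ R n g))
    (t_gen p k Λ cl K B res T κ0 φ R n g)
    (p_l1 p k Λ cl K B res T κ0 φ R n g (p_bas p k Λ cl K B res T κ0 φ R n g))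
    (t_l2 p k Λ cl K B res T κ0 φ R n g) (t_l3 p k Λ cl K B res T κ0 φ R n g)
    (t_l6 p k Λ cl K B res T κ0 φ R n g) C hex hR h8

end

/-- The data of an exotic group contradict `S_fin`, given Lemma S. -/
theorem onto_of {p : ℕ} [Fact p.Prime] {k K Λ : Type} [Field k] [CharP k p] [IsAlgClosed k]
    [Field K] [Algebra k K] [Group Λ] (C : F2.Core p k K Λ) (hfin : S_fin)
    (h8 : ¬ OntoF2 Λ → L8 k p C.φ C.t (ES C.cl C.T)) : OntoF2 Λ := by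
  by_contra hex
  obtain ⟨m, hm⟩ := t_locF p k Λ C.cl K C.B C.res C.T C.κ0 C.φ C.R C.n C.t (ofCore C) hex
    (fun m => C.rfields m) (h8 hex)
  exact hfin p k K C.n C.t C.φ _ _ _ ⟨⟨C.b0, C.ρ0, C.base⟩, hm⟩

end Pool.Agent.F2L
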