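import Pool.Agent.Lib.MP_305fdd_al.F2.L.Stm
import Pool.Agent.Lib.MP_305fdd_al.F2.W.Z0
import Pool.Agent.Lib.MP_305fdd_al.F2.W.Z1
import Pool.Agent.Lib.MP_305fdd_al.F2.W.O2

/-!
# MP_305fdd_al, F_2 project, section L: piece bas
-/

set_option autoImplicit false

namespace Pool.Agent.F2L

open Polynomial Pool.Agent.F2Ch Pool.Agent.F2 Pool.Agent.F2RF Pool.Agent.F2W Pool.Agent.F2D
open Pool.Agent.F2PF

theorem p_bas (p : ℕ) [Fact p.Prime] (k : Type) [Field k] [CharP k p] [PerfectRing k p]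
    [IsAlgClosed k] (Λ : Type) [Group Λ] (cl : Λ →* Multiplicative (ℤ × ℤ)) (K : Type) [Field K]
    [Algebra k K] (B : Subalgebra k K) (res : B →ₐ[k] Lau k) (T : Λ → K) (κ0 : B) (φ : K → K)
    (R : K → ℤ) (n : ℕ) (g : Fin n → K) : S_bas p k Λ cl K B res T κ0 φ R n g := by
  intro hC
  have hfrac : ∀ x : K, ∃ a b : MvPolynomial (Fin n) k, MvPolynomial.aeval g b ≠ 0 ∧
      x * MvPolynomial.aeval g b = MvPolynomial.aeval g a := by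
    intro x
    obtain ⟨a, b, hb, e⟩ := hC.fra.gen x
    obtain ⟨qa, ha⟩ := (hC.Bg a).1 a.2
    obtain ⟨qb, hqb⟩ := (hC.Bg b).1 b.2
    exact ⟨qa, qb, by rw [hqb]; exact hb, by rw [hqb, ha]; exact e⟩
  have hcl : ∀ l, cl l ≠ 1 → Multiplicative.toAdd (cl l) ≠ 0 := by
    intro l hl h
    exact hl (toAdd_eq_zero.1 h)
  refine ⟨hfrac, ⟨⟨1, map_one _⟩, ?_, ?_⟩, fun f => (hC.Bg f).symm, ?_, ?_, ?_, ?_, ?_⟩
  · rintro _ ⟨a, rfl⟩ _ ⟨b, rfl⟩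
    exact ⟨a * b, map_mul _ _ _⟩
  · intro x
    obtain ⟨a, b, hb, e⟩ := hfrac x
    exact ⟨_, ⟨a, rfl⟩, _, ⟨b, rfl⟩, hb, e⟩
  · obtain ⟨l, hl⟩ := hC.onto (Multiplicative.ofAdd (1, 0))
    obtain ⟨l', hl'⟩ := hC.onto (Multiplicative.ofAdd (0, 1))
    refine ⟨l, l', ?_⟩
    rw [hl, hl']
    intro h
    change (1 : ℤ) * 1 = 0 * 0 at h
    norm_num at h
  · intro Γ _ _ _ V hV
    obtain ⟨h1, h2⟩ := p_O2 p hC.odd k K Γ B res φ hC.fra V hV.isv hV.triv hV.compat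
    exact ⟨h1, fun l => h2 ⟨T l, hC.mem l⟩ _ (hC.res_T l)⟩
  · intro Γ _ _ _ V hV l hl h0
    exact p_Z1 p_Z0 p hC.odd k K Γ B res φ hC.fra V hV.isv hV.triv hV.compat ⟨T l, hC.mem l⟩ _
      (hcl l hl) (hC.res_T l) (Or.inr h0.ge)
  · intro f
    have h1 : Algebra.adjoin k (Set.range T) ≤ ((Sy k).comap res).map B.val := by
      rw [Algebra.adjoin_le_iff]
      rintro _ ⟨l, rfl⟩
      refine ⟨⟨T l, hC.mem l⟩, ?_, rfl⟩
      show res ⟨T l, hC.mem l⟩ ∈ Sy k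
      rw [hC.res_T]
      exact Algebra.subset_adjoin ⟨_, rfl⟩
    rw [hC.gen] at h1
    obtain ⟨f', h2, h3⟩ := h1 f.2
    have h4 : f' = f := Subtype.ext h3
    rw [← h4]
    exact h2
  · intro c
    obtain ⟨l, hl⟩ := hC.onto (Multiplicative.ofAdd c)
    exact ⟨⟨T l, hC.mem l⟩, by rw [hC.res_T, hl]; rfl⟩

end Pool.Agent.F2L
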