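import Pool.Agent.Lib.MP_305fdd_al.F2.L.Stm

/-!
# MP_305fdd_al, [F2L neg]: the residue ring and the pole type place
-/

set_option autoImplicit false

namespace Pool.Agent.F2L

open Polynomial Pool.Agent.F2Ch Pool.Agent.F2 Pool.Agent.F2RF Pool.Agent.F2W Pool.Agent.F2D
open Pool.Agent.F2PF

/-- an integral valuation as a real valuation -/
private theorem neg_cast {L : Type} [Field L] {C : L → ℤ} (h : IsV C) :
    IsV (fun y => (C y : ℝ)) := by
  refine ⟨?_, ?_, ?_⟩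
  · rw [h.zero, Int.cast_zero]
  · intro x y hx hy
    rw [h.mul x y hx hy, Int.cast_add]
  · intro x y hx hy hxy
    have h1 := h.add x y hx hy hxy
    rw [min_le_iff] at h1 ⊢
    rcases h1 with h1 | h1
    · exact Or.inl (by exact_mod_cast h1)
    · exact Or.inr (by exact_mod_cast h1)

section
variable (p : ℕ) [Fact p.Prime] (k : Type) [Field k] [CharP k p] [PerfectRing k p] [IsAlgClosed k]
  (Λ : Type) [Group Λ] (cl : Λ →* Multiplicative (ℤ × ℤ)) (K : Type) [Field K] [Algebra k K]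
  (B : Subalgebra k K) (res : B →ₐ[k] Lau k) (T : Λ → K) (κ0 : B) (φ : K → K) (R : K → ℤ)
  (n : ℕ) (g : Fin n → K)

/-- [F2L neg] -/
theorem p_neg (hA1 : F2W.S_A1) (hA4 : F2W.S_A4) (hA5 : F2W.S_A5)
    (hbas : S_bas p k Λ cl K B res T κ0 φ R n g) (hDV : S_DV p k Λ cl K B res T κ0 φ R n g) :
    S_neg p k Λ cl K B res T κ0 φ R n g := by
  intro hc κ _ _ w x ac φb hR hneg c hcpos hSG
  obtain ⟨-, -, hBr, -⟩ := hbas hc
  have hw : IsV w := hR.inz.isv
  have hκ0 : (κ0 : K) ≠ 0 := by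
    intro h
    exact hc.κne (Subtype.ext h)
  -- a positive element
  obtain ⟨f1, hf1⟩ : ∃ f : B, 0 < w f := by
    unfold SG at hSG
    push Not at hSG
    obtain ⟨f, hf, -, hf1⟩ := hSG
    refine ⟨⟨f, (hBr f).1 hf⟩, ?_⟩
    have h2 : (0 : ℝ) < (w f : ℝ) := (pos_iff_pos_of_mul_pos hf1).1 hcpos
    exact_mod_cast h2
  have hf10 : (f1 : K) ≠ 0 := by
    intro h
    rw [h, hw.zero] at hf1
    exact lt_irrefl _ hf1
  -- a positive element of the ideal
  have hpos : ∃ f : B, res f = 0 ∧ 0 < w f := by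
    refine ⟨f1 ^ ((w (κ0 : K)).natAbs + 1) * κ0, ?_, ?_⟩
    · rw [map_mul, hc.κres, mul_zero]
    · have hpow : ∀ N : ℕ, w ((f1 : K) ^ N) = N * w f1 := by
        intro N
        induction N with
        | zero =>
          have h1 : w ((f1 : K) ^ 0 * (f1 : K)) = w ((f1 : K) ^ 0) + w f1 :=
            hw.mul _ _ (pow_ne_zero _ hf10) hf10
          rw [pow_zero, one_mul] at h1
          rw [pow_zero]
          push_cast
          linarith
        | succ N ih =>
          rw [pow_succ, hw.mul _ _ (pow_ne_zero _ hf10) hf10, ih]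
          push_cast
          ring
      have h1 : w (((f1 ^ ((w (κ0 : K)).natAbs + 1) * κ0 : B)) : K) =
          (((w (κ0 : K)).natAbs + 1 : ℕ) : ℤ) * w f1 + w κ0 := by
        rw [← hpow]
        push_cast
        exact hw.mul _ _ (pow_ne_zero _ hf10) hκ0
      rw [h1]
      have h3 := neg_abs_le (w (κ0 : K))
      have h4 : (((w (κ0 : K)).natAbs + 1 : ℕ) : ℤ) ≤ (((w (κ0 : K)).natAbs + 1 : ℕ) : ℤ) * w f1 := by
        nlinarith
      push_cast at h4 ⊢
      linarith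
  have hneg' : ∃ f : B, res f = 0 ∧ w f < 0 :=
    hA5 k K B res w hw ⟨κ0, hc.κres, hκ0⟩ hneg
  obtain ⟨A, hA, hAf⟩ := hA1 k K κ B hc.fra.gen w hw hR.inz.triv ⟨f1, hf1⟩ hneg 1 x ac hR.isac
  refine ⟨⟨f1, hf1⟩, A, hA, hAf, ?_⟩
  intro V hV hel hPT C δ b hC
  obtain ⟨hne, -⟩ := hDV hc κ w x ac φb hR hneg c hcpos V hV hel C δ b hC
  obtain ⟨μ, hμ⟩ := hPT
  have hCneg : ∀ f : B, res f = 0 → (f : K) ≠ 0 → w f = 0 → ((C (ac f) : ℤ) : ℝ) < 0 := by
    intro f hf0 hfn hfw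
    have h1 := hμ f ((hBr f).2 f.2) hfn
    have h2 : c2 V (f : K) = δ * (C (ac f) : ℝ) := by
      unfold c2
      rw [hC.eq f hfn, hfw]
      simp
    unfold dot at h1
    simp only at h1
    rw [h2, hfw] at h1
    simp only [Int.cast_zero, mul_zero, zero_add, one_mul] at h1
    have h3 : (C (ac f) : ℝ) ≤ 0 := by
      by_contra hcon
      push Not at hcon
      have := mul_pos hC.pos hcon
      linarith
    have h4 : (C (ac f) : ℝ) ≠ 0 := by
      exact_mod_cast hne f hf0 hfn hfw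
    exact lt_of_le_of_ne h3 h4
  obtain ⟨Q, q1, q2, q3, q4, q5, q6⟩ := hA4 k K κ B res w hw hR.inz.triv hpos hneg' 1 x ac hR.isac
    A hA (fun y => (C y : ℝ)) (neg_cast hC.plc.isv) hCneg
  refine ⟨Q, q1, q2, q3, ?_, ?_, ?_⟩
  · intro h hh h0
    exact_mod_cast q4 h hh h0
  · intro a ha h0
    exact_mod_cast q5 a ha h0
  · obtain ⟨a, ha, h0, h1⟩ := q6
    exact ⟨a, ha, h0, by exact_mod_cast h1⟩

end

end Pool.Agent.F2L
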